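import Mathlib

open MeasureTheory Set Filter Topology

namespace Q176Had

/-- partial derivative in the real direction -/
noncomputable def dx (f : ℂ → ℝ) (z : ℂ) : ℝ := fderiv ℝ f z 1
/-- partial derivative in the imaginary direction -/
noncomputable def dy (f : ℂ → ℝ) (z : ℂ) : ℝ := fderiv ℝ f z Complex.I
/-- Laplacian -/
noncomputable def lap (f : ℂ → ℝ) (z : ℂ) : ℝ := dx (dx f) z + dy (dy f) z
/-- inner product of gradients -/
noncomputable def gin (f g : ℂ → ℝ) (z : ℂ) : ℝ := dx f z * dx g z + dy f z * dy g z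
/-- squared norm of the gradient -/
noncomputable def gsq (f : ℂ → ℝ) (z : ℂ) : ℝ := dx f z ^ 2 + dy f z ^ 2

lemma gsq_eq (f : ℂ → ℝ) (z : ℂ) : gsq f z = gin f f z := by
  simp only [gsq, gin]; ring

lemma gsq_nonneg (f : ℂ → ℝ) (z : ℂ) : 0 ≤ gsq f z := by
  unfold gsq; positivity

lemma continuous_fderiv_apply_of {f : ℂ → ℝ} (hf : ContDiff ℝ 1 f) (v : ℂ) :
    Continuous (fun z => fderiv ℝ f z v) :=
  (hf.continuous_fderiv one_ne_zero).clm_apply continuous_const

lemma continuous_dx {f : ℂ → ℝ} (hf : ContDiff ℝ 1 f) : Continuous (dx f) :=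
  continuous_fderiv_apply_of hf 1
lemma continuous_dy {f : ℂ → ℝ} (hf : ContDiff ℝ 1 f) : Continuous (dy f) :=
  continuous_fderiv_apply_of hf Complex.I

lemma continuous_gsq {f : ℂ → ℝ} (hf : ContDiff ℝ 1 f) : Continuous (gsq f) :=
  ((continuous_dx hf).pow 2).add ((continuous_dy hf).pow 2)

lemma continuous_gin {f g : ℂ → ℝ} (hf : ContDiff ℝ 1 f) (hg : ContDiff ℝ 1 g) :
    Continuous (gin f g) :=
  ((continuous_dx hf).mul (continuous_dx hg)).add ((continuous_dy hf).mul (continuous_dy hg))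

lemma contDiff_dx {f : ℂ → ℝ} {n : ℕ} (hf : ContDiff ℝ (n + 1) f) : ContDiff ℝ n (dx f) := by
  unfold dx
  exact (hf.fderiv_right (m := n) le_rfl).clm_apply contDiff_const
lemma contDiff_dy {f : ℂ → ℝ} {n : ℕ} (hf : ContDiff ℝ (n + 1) f) : ContDiff ℝ n (dy f) := by
  unfold dy
  exact (hf.fderiv_right (m := n) le_rfl).clm_apply contDiff_const

lemma contDiff_dx1 {f : ℂ → ℝ} (hf : ContDiff ℝ 2 f) : ContDiff ℝ 1 (dx f) := by
  have := contDiff_dx (n := 1) (f := f) (by exact_mod_cast hf)
  exact_mod_cast this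
lemma contDiff_dy1 {f : ℂ → ℝ} (hf : ContDiff ℝ 2 f) : ContDiff ℝ 1 (dy f) := by
  have := contDiff_dy (n := 1) (f := f) (by exact_mod_cast hf)
  exact_mod_cast this

lemma continuous_lap {f : ℂ → ℝ} (hf : ContDiff ℝ 2 f) : Continuous (lap f) :=
  (continuous_dx (contDiff_dx1 hf)).add (continuous_dy (contDiff_dy1 hf))

lemma fderiv_apply_eq (f : ℂ → ℝ) (z w : ℂ) :
    fderiv ℝ f z w = w.re * dx f z + w.im * dy f z := by
  have h : w = (w.re : ℝ) • (1 : ℂ) + (w.im : ℝ) • Complex.I := by
    apply Complex.ext <;> simp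
  conv_lhs => rw [h]
  rw [map_add, map_smul, map_smul]
  simp [dx, dy]

lemma sq_fderiv_le (f : ℂ → ℝ) (z w : ℂ) :
    (fderiv ℝ f z w) ^ 2 ≤ ‖w‖ ^ 2 * gsq f z := by
  rw [fderiv_apply_eq, gsq, ← Complex.normSq_eq_norm_sq, Complex.normSq_apply]
  nlinarith [sq_nonneg (w.re * dy f z - w.im * dx f z)]

lemma lap_eq_laplacian {f : ℂ → ℝ} (hf : ContDiff ℝ 2 f) (z : ℂ) :
    Laplacian.laplacian f z = lap f z := by
  rw [InnerProductSpace.laplacian_eq_iteratedFDeriv_complexPlane]
  have key : ∀ v : ℂ, iteratedFDeriv ℝ 2 f z ![v, v]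
      = fderiv ℝ (fun w => fderiv ℝ f w v) z v := by
    intro v
    rw [iteratedFDeriv_two_apply]
    simp only [Matrix.cons_val_zero, Matrix.cons_val_one]
    have hd : DifferentiableAt ℝ (fderiv ℝ f) z :=
      ((hf.fderiv_right (m := 1) (by norm_num)).differentiable one_ne_zero) z
    have := fderiv_clm_apply (c := fderiv ℝ f) (u := fun _ => v) hd (differentiableAt_const v)
    rw [this]
    simp
  simp only [key]
  rfl

/-- integration by parts -/
lemma integral_gin {f g : ℂ → ℝ} (hf : ContDiff ℝ 2 f) (hg : ContDiff ℝ 1 g)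
    (hgc : HasCompactSupport g) :
    ∫ z, gin f g z = - ∫ z, lap f z * g z := by
  have key : ∀ v : ℂ, (∫ z, fderiv ℝ f z v * fderiv ℝ g z v
      = - ∫ z, fderiv ℝ (fun w => fderiv ℝ f w v) z v * g z)
      ∧ Integrable (fun z => fderiv ℝ f z v * fderiv ℝ g z v)
      ∧ Integrable (fun z => fderiv ℝ (fun w => fderiv ℝ f w v) z v * g z) := by
    intro v
    have h1 : ContDiff ℝ 1 (fun w => fderiv ℝ f w v) :=
      (hf.fderiv_right (m := 1) (by norm_num)).clm_apply contDiff_const
    have hc1 : Continuous (fun z => fderiv ℝ (fun w => fderiv ℝ f w v) z v) :=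
      continuous_fderiv_apply_of h1 v
    have hc2 : Continuous (fun z => fderiv ℝ g z v) := continuous_fderiv_apply_of hg v
    have i1 : Integrable (fun z => fderiv ℝ (fun w => fderiv ℝ f w v) z v * g z) :=
      (hc1.mul hg.continuous).integrable_of_hasCompactSupport hgc.mul_left
    have i2 : Integrable (fun z => fderiv ℝ f z v * fderiv ℝ g z v) := by
      apply (h1.continuous.mul hc2).integrable_of_hasCompactSupport
      apply HasCompactSupport.mul_left
      exact hgc.fderiv_apply ℝ v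
    have i3 : Integrable (fun z => fderiv ℝ f z v * g z) :=
      (h1.continuous.mul hg.continuous).integrable_of_hasCompactSupport hgc.mul_left
    refine ⟨?_, i2, i1⟩
    exact integral_mul_fderiv_eq_neg_fderiv_mul_of_integrable i1 i2 i3
      (fun x _ => h1.differentiable one_ne_zero x) (fun x _ => hg.differentiable one_ne_zero x)
  obtain ⟨e1, a1, b1⟩ := key 1
  obtain ⟨e2, a2, b2⟩ := key Complex.I
  have l1 : (fun z => gin f g z) = fun z => fderiv ℝ f z 1 * fderiv ℝ g z 1
      + fderiv ℝ f z Complex.I * fderiv ℝ g z Complex.I := rfl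
  have l2 : (fun z => lap f z * g z) = fun z => fderiv ℝ (fun w => fderiv ℝ f w 1) z 1 * g z
      + fderiv ℝ (fun w => fderiv ℝ f w Complex.I) z Complex.I * g z := by
    funext z
    exact add_mul _ _ _
  rw [l1, l2, integral_add a1 a2, integral_add b1 b2, e1, e2]
  ring

/-- second derivative test in one variable -/
lemma deriv2_nonpos_of_isLocalMax {h h1 : ℝ → ℝ} {d : ℝ}
    (hh : ∀ t, HasDerivAt h (h1 t) t) (hd : HasDerivAt h1 d 0) (hm : IsLocalMax h 0) : d ≤ 0 := by
  by_contra hcon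
  push Not at hcon
  have e1 : deriv h = h1 := funext fun t => (hh t).deriv
  have h10 : h1 0 = 0 := by
    have := hm.deriv_eq_zero
    rwa [e1] at this
  have hmin : IsLocalMin h 0 := by
    apply isLocalMin_of_deriv_deriv_pos
    · rw [e1, hd.deriv]; exact hcon
    · rw [e1]; exact h10
    · exact (hh 0).continuousAt
  -- so h is locally constant, so h1 is locally zero
  have hconst : h =ᶠ[𝓝 0] fun _ => h 0 := by
    filter_upwards [hm, hmin] with t ht1 ht2
    exact le_antisymm ht1 ht2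
  have h1z : h1 =ᶠ[𝓝 0] fun _ => 0 := by
    have := hconst.eventuallyEq_nhds
    filter_upwards [this] with t ht
    have e : deriv h t = deriv (fun _ => h 0) t := ht.deriv_eq
    rw [e1] at e
    rw [e]; simp
  have : deriv h1 0 = 0 := by
    rw [h1z.deriv_eq]; simp
  rw [hd.deriv] at this
  linarith

lemma lap_nonpos_of_isLocalMax {f : ℂ → ℝ} (hf : ContDiff ℝ 2 f) {z : ℂ} (hm : IsLocalMax f z) :
    lap f z ≤ 0 := by
  have key : ∀ v : ℂ, fderiv ℝ (fun w => fderiv ℝ f w v) z v ≤ 0 := by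
    intro v
    have h1 : ContDiff ℝ 1 (fun w => fderiv ℝ f w v) :=
      (hf.fderiv_right (m := 1) (by norm_num)).clm_apply contDiff_const
    have hline : ∀ t : ℝ, HasDerivAt (fun t : ℝ => z + (t : ℝ) • v) v t := by
      intro t
      have := ((hasDerivAt_id t).smul_const v).const_add z
      simpa using this
    have hz0 : z + (0 : ℝ) • v = z := by simp
    apply deriv2_nonpos_of_isLocalMax (h := fun t : ℝ => f (z + t • v))
      (h1 := fun t : ℝ => fderiv ℝ f (z + t • v) v)
    · intro t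
      exact ((hf.differentiable two_ne_zero (z + t • v)).hasFDerivAt).comp_hasDerivAt t (hline t)
    · have := ((h1.differentiable one_ne_zero (z + (0 : ℝ) • v)).hasFDerivAt).comp_hasDerivAt
        (0 : ℝ) (hline 0)
      rw [hz0] at this
      exact this
    · have hcont : ContinuousAt (fun t : ℝ => z + (t : ℝ) • v) 0 := (hline 0).continuousAt
      have hm' : ∀ᶠ w in 𝓝 ((fun t : ℝ => z + (t : ℝ) • v) 0), f w ≤ f z := by
        show ∀ᶠ w in 𝓝 (z + (0 : ℝ) • v), f w ≤ f z
        rw [hz0]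
        exact hm
      have := hcont.eventually hm'
      show ∀ᶠ t in 𝓝 (0:ℝ), f (z + t • v) ≤ f (z + (0:ℝ) • v)
      rw [hz0]
      exact this
  have := add_nonpos (key 1) (key Complex.I)
  exact this

end Q176Had
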