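import Pool.Agent.Q176.Had.Est

open MeasureTheory Set Filter Topology
open scoped Real

namespace Q176Had

lemma pi_sq_bounds : 0 < π ^ 2 ∧ π ^ 2 < 10 := by
  have h1 := Real.pi_pos
  have h2 := Real.pi_lt_d2
  exact ⟨by positivity, by nlinarith⟩

set_option maxHeartbeats 1000000 in
/-- circles on which `v` is bounded -/
lemma exists_circle_bound {u : ℂ → ℝ} (hu : ContDiff ℝ 2 u) (hsub : ∀ z, 0 ≤ lap u z)
    {c : ℝ} (hc : 0 ≤ c) (hcurv : ∀ z, lap u z ≤ c * Real.exp (2 * u z)) {K : ℝ} (hK : 0 ≤ K)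
    (hcut : ∀ R : ℝ, 0 < R → ∃ φ : ℂ → ℝ, ContDiff ℝ 1 φ ∧ HasCompactSupport φ ∧
      (∀ z, 0 ≤ φ z ∧ φ z ≤ 1) ∧ (∀ z, ‖z‖ ≤ R → φ z = 1) ∧
      ∀ z, gsq φ z ≤ K * Real.exp (2 * u z)) :
    ∃ T, 0 ≤ T ∧ ∀ R : ℝ, 0 < R → ∃ r ∈ Icc R (2 * R), ∀ z, ‖z‖ = r → vv u z ≤ T := by
  obtain ⟨hpi2, hpi10⟩ := pi_sq_bounds
  set C₀ : ℝ := max 0 (-u 0) with hC₀def
  have hC₀ : 0 ≤ C₀ := le_max_left _ _
  set τ : ℝ := 1 / (320 * (c + 2)) with hτdef
  have hτ : 0 < τ := by positivity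
  set ε : ℝ := 1 / 20 with hεdef
  have hε : 0 < ε := by norm_num
  set A : ℝ := (2 * (c + 2) / τ ^ 3 + 8 * K) * (2 * π ^ 2 / ε) with hA
  have hA0 : 0 ≤ A := by positivity
  set D : ℝ := 2 * A with hD
  set Q : ℝ := 2 * π * (2 * D + 1) with hQ
  have hQ0 : 0 ≤ Q := by have := Real.pi_pos; positivity
  refine ⟨C₀ + (1 + 4 * Q), by positivity, ?_⟩
  intro R hR
  obtain ⟨φ, hφ, hφc, hφ01, hφ1, hφg⟩ := hcut (2 * R) (by linarith)
  obtain ⟨N₁, hN₁⟩ := hφc.isCompact.isBounded.subset_ball (0 : ℂ)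
  set N : ℝ := max N₁ (2 * R) with hN
  have hN0 : 0 < N := lt_of_lt_of_le (by linarith) (le_max_right _ _)
  have hsupp : tsupport φ ⊆ Metric.ball (0 : ℂ) N :=
    hN₁.trans (Metric.ball_subset_ball (le_max_left _ _))
  set l₀ : ℝ := ellr R with hl₀
  have hcacc := caccioppoli hu hc hcurv hφ hsupp hφ01 hφg hε l₀ hτ hC₀
  set f : ℂ → ℝ := fun z => (φ z * lw ε l₀ z) * pp 0 (vv u z - C₀) with hf
  have hvc1 : ContDiff ℝ 1 (vv u) := (contDiff_vv hu).of_le (by norm_num)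
  have hfc : ContDiff ℝ 1 f :=
    (hφ.mul (contDiff_lw ε l₀)).mul ((contDiff_pp 0).comp (hvc1.sub contDiff_const))
  have hzero : ∀ r > 0, ∃ θ₀ ∈ Icc (-π) π, f (cpt r θ₀) = 0 := by
    intro r hr
    obtain ⟨z, hz, hz2⟩ := exists_circle_ge hu hsub hr
    obtain ⟨θ, hθ, hzθ⟩ := exists_cpt z
    refine ⟨θ, hθ, ?_⟩
    rw [← hz, ← hzθ, hf]
    have h1 : vv u z ≤ C₀ := by
      unfold vv
      have := ell_nonneg z
      have h2 : -u 0 ≤ C₀ := le_max_right _ _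
      linarith
    have h2 : pp 0 (vv u z - C₀) = 0 := by
      unfold pp
      rw [max_eq_right (by linarith)]; simp
    simp only [h2, mul_zero]
  have hpoin := poincare hfc hN0 hzero
  have hJ := integral_lw_le hε l₀ hN0
  set I := ∫ z in Metric.ball (0 : ℂ) N, gsq f z with hI
  have hI0 : 0 ≤ I := integral_nonneg (fun z => gsq_nonneg _ _)
  have hID : I ≤ D := by
    have h1 : (2 * (c + 2) * τ + 2 * ε ^ 2) * (∫ z in Metric.ball (0 : ℂ) N, wt z * f z ^ 2)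
        ≤ (2 * (c + 2) * τ + 2 * ε ^ 2) * (4 * π ^ 2 * I) :=
      mul_le_mul_of_nonneg_left hpoin (by positivity)
    have h2 : 2 * (c + 2) * τ = 1 / 160 := by
      rw [hτdef]; field_simp; norm_num
    have h3 : (2 * (c + 2) * τ + 2 * ε ^ 2) * (4 * π ^ 2 * I) ≤ I / 2 := by
      rw [h2, hεdef]
      nlinarith
    have h4 : (2 * (c + 2) / τ ^ 3 + 8 * K) * ∫ z in Metric.ball (0 : ℂ) N, lw ε l₀ z * wt z
        ≤ A := mul_le_mul_of_nonneg_left hJ (by positivity)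
    have h5 : I ≤ I / 2 + A := by
      calc I ≤ _ := hcacc
        _ ≤ I / 2 + A := add_le_add (h1.trans h3) h4
    rw [hD]; linarith
  obtain ⟨r, hr, hcirc⟩ := exists_good_circle hfc hR (le_max_right N₁ (2 * R)) hID
  refine ⟨r, hr, ?_⟩
  intro z hz
  have hr0 : 0 < r := lt_of_lt_of_le hR hr.1
  obtain ⟨θ₀, hθ₀, hzθ₀⟩ := hzero r hr0
  obtain ⟨θ, hθ, hzθ⟩ := exists_cpt z
  rw [hz] at hzθ
  have hsq := circle_sq_le hfc r hθ₀ hzθ₀ hθ
  rw [← hzθ] at hsq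
  have hsq2 : f z ^ 2 ≤ Q := by
    refine hsq.trans ?_
    apply mul_le_mul_of_nonneg_left hcirc
    have := Real.pi_pos
    positivity
  have hφz : φ z = 1 := hφ1 z (by rw [hz]; exact hr.2)
  have hlw : 1 / 2 ≤ lw ε l₀ z := by
    have hell : ell z = ellr r := by rw [hzθ, ell_cpt]
    unfold lw
    rw [hell]
    have h1 : 0 ≤ ellr r - l₀ := by
      rw [hl₀]; unfold ellr
      have : Real.log (1 + R ^ 2) ≤ Real.log (1 + r ^ 2) := by
        apply Real.log_le_log (by positivity)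
        nlinarith [hr.1]
      linarith
    have h2 : ellr r - l₀ ≤ 3 := by
      rw [hl₀]; unfold ellr
      have h3 : Real.log (1 + r ^ 2) ≤ Real.log (4 * (1 + R ^ 2)) := by
        apply Real.log_le_log (by positivity)
        nlinarith [hr.2]
      rw [Real.log_mul (by norm_num) (by positivity)] at h3
      have h4 : Real.log 4 ≤ 4 - 1 := Real.log_le_sub_one_of_pos (by norm_num)
      linarith
    rw [hεdef]
    apply one_div_le_one_div_of_le (by positivity)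
    nlinarith
  -- conclude
  by_contra hcon
  push Not at hcon
  set t := vv u z - C₀ with ht
  have ht1 : 1 + 4 * Q < t := by rw [ht]; linarith
  have htpos : 0 < t := by linarith
  have hfz : f z = lw ε l₀ z * t ^ 2 := by
    rw [hf]
    simp only
    rw [hφz, ← ht]
    unfold pp
    rw [max_eq_left htpos.le]
    ring
  have h1 : (1 / 2 * t ^ 2) ^ 2 ≤ f z ^ 2 := by
    rw [hfz]
    apply pow_le_pow_left₀ (by positivity)
    exact mul_le_mul_of_nonneg_right hlw (by positivity)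
  have h2 : t ^ 4 ≤ 4 * Q := by
    have : (1 / 2 * t ^ 2) ^ 2 = t ^ 4 / 4 := by ring
    linarith
  have h3 : t ≤ t ^ 4 := by
    have : 1 ≤ t := by linarith
    calc t = t ^ 1 := (pow_one t).symm
      _ ≤ t ^ 4 := pow_le_pow_right₀ this (by norm_num)
  linarith

/-- the main bound: `v` is bounded above -/
theorem vv_bounded {u : ℂ → ℝ} (hu : ContDiff ℝ 2 u) (hsub : ∀ z, 0 ≤ lap u z)
    {c : ℝ} (hc : 0 ≤ c) (hcurv : ∀ z, lap u z ≤ c * Real.exp (2 * u z)) {K : ℝ} (hK : 0 ≤ K)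
    (hcut : ∀ R : ℝ, 0 < R → ∃ φ : ℂ → ℝ, ContDiff ℝ 1 φ ∧ HasCompactSupport φ ∧
      (∀ z, 0 ≤ φ z ∧ φ z ≤ 1) ∧ (∀ z, ‖z‖ ≤ R → φ z = 1) ∧
      ∀ z, gsq φ z ≤ K * Real.exp (2 * u z)) :
    ∃ V, ∀ z, vv u z ≤ V := by
  obtain ⟨T, hT0, hT⟩ := exists_circle_bound hu hsub hc hcurv hK hcut
  have hvc : ContDiff ℝ 2 (vv u) := contDiff_vv hu
  obtain ⟨M, hM⟩ := (isCompact_closedBall (0 : ℂ) 2).exists_bound_of_continuousOn
    hvc.continuous.continuousOn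
  set κ : ℝ := c + 3 with hκ
  refine ⟨max M (T + 4 * κ), ?_⟩
  intro z₀
  rcases le_or_gt ‖z₀‖ 2 with h2 | h2
  · have := hM z₀ (by simpa using h2)
    exact le_trans (le_abs_self _) (le_trans this (le_max_left _ _))
  refine le_trans ?_ (le_max_right _ _)
  set R := ‖z₀‖ with hR
  have hR0 : 0 < R := by linarith
  obtain ⟨r₁, hr₁, hb₁⟩ := hT (R / 2) (by linarith)
  obtain ⟨r₂, hr₂, hb₂⟩ := hT R hR0
  rw [show 2 * (R / 2) = R by ring] at hr₁
  set S : Set ℂ := {z | r₁ ≤ ‖z‖ ∧ ‖z‖ ≤ r₂} with hS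
  have hScl : IsClosed S := by
    rw [hS]
    exact (isClosed_le continuous_const continuous_norm).inter
      (isClosed_le continuous_norm continuous_const)
  have hSc : IsCompact S := by
    apply (isCompact_closedBall (0 : ℂ) r₂).of_isClosed_subset hScl
    intro z hz
    simpa using hz.2
  have hz₀S : z₀ ∈ S := ⟨hr₁.2, hr₂.1⟩
  set F : ℂ → ℝ := fun z => vv u z + (κ / R ^ 2) * nsq z with hF
  have hFc : ContDiff ℝ 2 F := hvc.add (contDiff_const.mul contDiff_nsq)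
  obtain ⟨z₁, hz₁S, hmax⟩ := hSc.exists_isMaxOn ⟨z₀, hz₀S⟩ hFc.continuous.continuousOn
  have hF01 : F z₀ ≤ F z₁ := hmax hz₀S
  have hvF0 : vv u z₀ ≤ F z₀ := by
    rw [hF]
    have h1 : 0 ≤ nsq z₀ := by unfold nsq; positivity
    have h2 : 0 ≤ κ / R ^ 2 * nsq z₀ := by positivity
    simp only
    linarith
  have hFv1 : F z₁ ≤ vv u z₁ + 4 * κ := by
    rw [hF]
    simp only
    rw [nsq_eq]
    have h1 : ‖z₁‖ ≤ 2 * R := hz₁S.2.trans hr₂.2
    have h2 : ‖z₁‖ ^ 2 ≤ 4 * R ^ 2 := by nlinarith [norm_nonneg z₁]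
    have h3 : κ / R ^ 2 * ‖z₁‖ ^ 2 ≤ κ / R ^ 2 * (4 * R ^ 2) :=
      mul_le_mul_of_nonneg_left h2 (by positivity)
    have h4 : κ / R ^ 2 * (4 * R ^ 2) = 4 * κ := by field_simp
    linarith
  have hv1 : vv u z₁ ≤ T := by
    rcases eq_or_lt_of_le hz₁S.1 with h | h
    · exact hb₁ z₁ h.symm
    rcases eq_or_lt_of_le hz₁S.2 with h' | h'
    · exact hb₂ z₁ h'
    by_contra hcon
    push Not at hcon
    have hv0 : 0 ≤ vv u z₁ := by linarith
    have hloc : IsLocalMax F z₁ := by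
      apply hmax.isLocalMax
      have hopen : IsOpen {z : ℂ | r₁ < ‖z‖ ∧ ‖z‖ < r₂} :=
        (isOpen_lt continuous_const continuous_norm).inter
          (isOpen_lt continuous_norm continuous_const)
      apply mem_of_superset (hopen.mem_nhds ⟨h, h'⟩)
      intro z hz
      exact ⟨hz.1.le, hz.2.le⟩
    have h1 := lap_nonpos_of_isLocalMax hFc hloc
    have h2 : lap F z₁ = lap (vv u) z₁ + κ / R ^ 2 * 4 := by
      rw [hF, lap_add hvc (contDiff_const.mul contDiff_nsq), lap_const_mul _ contDiff_nsq, lap_nsq]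
    have h3 := neg_lap_vv_le hu hc hcurv hv0
    rw [h2] at h1
    have h4 : wt z₁ ≤ 4 / R ^ 2 := by
      unfold wt
      rw [div_le_div_iff₀ (by positivity) (by positivity)]
      have h5 : R / 2 ≤ ‖z₁‖ := hr₁.1.trans hz₁S.1
      nlinarith
    have h6 : (c + 2) * wt z₁ ≤ (c + 2) * (4 / R ^ 2) :=
      mul_le_mul_of_nonneg_left h4 (by linarith)
    have h7 : κ / R ^ 2 * 4 = (c + 2) * (4 / R ^ 2) + 4 / R ^ 2 := by
      rw [hκ]; ring
    have h8 : 0 < 4 / R ^ 2 := by positivity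
    linarith
  linarith

end Q176Had
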