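import Pool.Agent.Q176.Had.Polar

open MeasureTheory Set Filter Topology
open scoped Real

namespace Q176Had

lemma dx_of_hasFDerivAt {f : ℂ → ℝ} {z : ℂ} {L : ℂ →L[ℝ] ℝ} (h : HasFDerivAt f L z) :
    dx f z = L 1 := by unfold dx; rw [h.fderiv]
lemma dy_of_hasFDerivAt {f : ℂ → ℝ} {z : ℂ} {L : ℂ →L[ℝ] ℝ} (h : HasFDerivAt f L z) :
    dy f z = L Complex.I := by unfold dy; rw [h.fderiv]

lemma dx_mul {f g : ℂ → ℝ} {z : ℂ} (hf : DifferentiableAt ℝ f z) (hg : DifferentiableAt ℝ g z) :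
    dx (fun z => f z * g z) z = f z * dx g z + g z * dx f z := by
  have this : HasFDerivAt (fun z => f z * g z) _ z := hf.hasFDerivAt.mul hg.hasFDerivAt
  rw [dx_of_hasFDerivAt this]
  simp [dx]
lemma dy_mul {f g : ℂ → ℝ} {z : ℂ} (hf : DifferentiableAt ℝ f z) (hg : DifferentiableAt ℝ g z) :
    dy (fun z => f z * g z) z = f z * dy g z + g z * dy f z := by
  have this : HasFDerivAt (fun z => f z * g z) _ z := hf.hasFDerivAt.mul hg.hasFDerivAt
  rw [dy_of_hasFDerivAt this]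
  simp [dy]

lemma dx_add {f g : ℂ → ℝ} {z : ℂ} (hf : DifferentiableAt ℝ f z) (hg : DifferentiableAt ℝ g z) :
    dx (fun z => f z + g z) z = dx f z + dx g z := by
  have this : HasFDerivAt (fun z => f z + g z) _ z := hf.hasFDerivAt.add hg.hasFDerivAt
  rw [dx_of_hasFDerivAt this]; rfl
lemma dy_add {f g : ℂ → ℝ} {z : ℂ} (hf : DifferentiableAt ℝ f z) (hg : DifferentiableAt ℝ g z) :
    dy (fun z => f z + g z) z = dy f z + dy g z := by
  have this : HasFDerivAt (fun z => f z + g z) _ z := hf.hasFDerivAt.add hg.hasFDerivAt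
  rw [dy_of_hasFDerivAt this]; rfl

lemma dx_const_mul {f : ℂ → ℝ} {z : ℂ} (a : ℝ) (hf : DifferentiableAt ℝ f z) :
    dx (fun z => a * f z) z = a * dx f z := by
  have := hf.hasFDerivAt.const_mul a
  rw [dx_of_hasFDerivAt this]; rfl
lemma dy_const_mul {f : ℂ → ℝ} {z : ℂ} (a : ℝ) (hf : DifferentiableAt ℝ f z) :
    dy (fun z => a * f z) z = a * dy f z := by
  have := hf.hasFDerivAt.const_mul a
  rw [dy_of_hasFDerivAt this]; rfl

lemma dx_comp {h : ℝ → ℝ} {h' : ℝ} {f : ℂ → ℝ} {z : ℂ} (hf : DifferentiableAt ℝ f z)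
    (hh : HasDerivAt h h' (f z)) : dx (fun z => h (f z)) z = h' * dx f z := by
  have this : HasFDerivAt (fun z => h (f z)) _ z := hh.comp_hasFDerivAt z hf.hasFDerivAt
  rw [dx_of_hasFDerivAt this]; rfl
lemma dy_comp {h : ℝ → ℝ} {h' : ℝ} {f : ℂ → ℝ} {z : ℂ} (hf : DifferentiableAt ℝ f z)
    (hh : HasDerivAt h h' (f z)) : dy (fun z => h (f z)) z = h' * dy f z := by
  have this : HasFDerivAt (fun z => h (f z)) _ z := hh.comp_hasFDerivAt z hf.hasFDerivAt
  rw [dy_of_hasFDerivAt this]; rfl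

lemma lap_add {f g : ℂ → ℝ} (hf : ContDiff ℝ 2 f) (hg : ContDiff ℝ 2 g) (z : ℂ) :
    lap (fun z => f z + g z) z = lap f z + lap g z := by
  have e1 : dx (fun z => f z + g z) = fun z => dx f z + dx g z := funext fun z =>
    dx_add (hf.differentiable two_ne_zero z) (hg.differentiable two_ne_zero z)
  have e2 : dy (fun z => f z + g z) = fun z => dy f z + dy g z := funext fun z =>
    dy_add (hf.differentiable two_ne_zero z) (hg.differentiable two_ne_zero z)
  unfold lap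
  rw [e1, e2, dx_add ((contDiff_dx1 hf).differentiable one_ne_zero z)
    ((contDiff_dx1 hg).differentiable one_ne_zero z),
    dy_add ((contDiff_dy1 hf).differentiable one_ne_zero z)
    ((contDiff_dy1 hg).differentiable one_ne_zero z)]
  ring

lemma lap_const_mul {f : ℂ → ℝ} (a : ℝ) (hf : ContDiff ℝ 2 f) (z : ℂ) :
    lap (fun z => a * f z) z = a * lap f z := by
  have e1 : dx (fun z => a * f z) = fun z => a * dx f z := funext fun z =>
    dx_const_mul a (hf.differentiable two_ne_zero z)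
  have e2 : dy (fun z => a * f z) = fun z => a * dy f z := funext fun z =>
    dy_const_mul a (hf.differentiable two_ne_zero z)
  unfold lap
  rw [e1, e2, dx_const_mul a ((contDiff_dx1 hf).differentiable one_ne_zero z),
    dy_const_mul a ((contDiff_dy1 hf).differentiable one_ne_zero z)]
  ring

/-- `|z|^2` -/
noncomputable def nsq (z : ℂ) : ℝ := z.re ^ 2 + z.im ^ 2

lemma nsq_eq (z : ℂ) : nsq z = ‖z‖ ^ 2 := by
  rw [← Complex.normSq_eq_norm_sq, Complex.normSq_apply]; unfold nsq; ring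

lemma contDiff_re : ContDiff ℝ 2 (fun z : ℂ => z.re) := Complex.reCLM.contDiff
lemma contDiff_im : ContDiff ℝ 2 (fun z : ℂ => z.im) := Complex.imCLM.contDiff

lemma contDiff_nsq : ContDiff ℝ 2 nsq := (contDiff_re.pow 2).add (contDiff_im.pow 2)

lemma hasFDerivAt_re (z : ℂ) : HasFDerivAt (fun z : ℂ => z.re) Complex.reCLM z :=
  Complex.reCLM.hasFDerivAt
lemma hasFDerivAt_im (z : ℂ) : HasFDerivAt (fun z : ℂ => z.im) Complex.imCLM z :=
  Complex.imCLM.hasFDerivAt

lemma dx_nsq : dx nsq = fun z => 2 * z.re := by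
  funext z
  have := ((hasFDerivAt_re z).pow 2).add ((hasFDerivAt_im z).pow 2)
  have h2 : HasFDerivAt nsq _ z := this
  rw [dx_of_hasFDerivAt h2]
  simp
lemma dy_nsq : dy nsq = fun z => 2 * z.im := by
  funext z
  have := ((hasFDerivAt_re z).pow 2).add ((hasFDerivAt_im z).pow 2)
  have h2 : HasFDerivAt nsq _ z := this
  rw [dy_of_hasFDerivAt h2]
  simp

lemma lap_nsq (z : ℂ) : lap nsq z = 4 := by
  unfold lap
  rw [dx_nsq, dy_nsq, dx_const_mul 2 (hasFDerivAt_re z).differentiableAt,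
    dy_const_mul 2 (hasFDerivAt_im z).differentiableAt, dx_of_hasFDerivAt (hasFDerivAt_re z),
    dy_of_hasFDerivAt (hasFDerivAt_im z)]
  norm_num

lemma ell_eq : ell = fun z => Real.log (1 + nsq z) / 2 := by
  funext z; unfold ell; rw [nsq_eq]

lemma one_add_nsq_pos (z : ℂ) : 0 < 1 + nsq z := by unfold nsq; positivity

lemma contDiff_ell : ContDiff ℝ 2 ell := by
  rw [ell_eq]
  exact ((contDiff_const.add contDiff_nsq).log (fun z => (one_add_nsq_pos z).ne')).div_const 2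

lemma ell_nonneg (z : ℂ) : 0 ≤ ell z := by
  unfold ell
  have : 0 ≤ Real.log (1 + ‖z‖ ^ 2) := Real.log_nonneg (by nlinarith [sq_nonneg ‖z‖])
  linarith

lemma exp_ell_sq (z : ℂ) : Real.exp (-2 * ell z) = wt z := by
  unfold ell wt
  have h : (0 : ℝ) < 1 + ‖z‖ ^ 2 := by positivity
  rw [show -2 * (Real.log (1 + ‖z‖ ^ 2) / 2) = -Real.log (1 + ‖z‖ ^ 2) by ring, Real.exp_neg,
    Real.exp_log h, one_div]

lemma hasDerivAt_halflog {x : ℝ} (hx : 0 < 1 + x) :
    HasDerivAt (fun x : ℝ => Real.log (1 + x) / 2) (1 / (1 + x) / 2) x := by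
  have h1 : HasDerivAt (fun x : ℝ => 1 + x) 1 x := by
    simpa using (hasDerivAt_id x).const_add 1
  exact (h1.log hx.ne').div_const 2

lemma dx_ell : dx ell = fun z => z.re * (1 / (1 + nsq z)) := by
  funext z
  rw [ell_eq]
  have h1 := dx_comp (f := nsq) (z := z) (contDiff_nsq.differentiable two_ne_zero z)
    (hasDerivAt_halflog (one_add_nsq_pos z))
  rw [h1, dx_nsq]
  have := one_add_nsq_pos z
  field_simp
lemma dy_ell : dy ell = fun z => z.im * (1 / (1 + nsq z)) := by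
  funext z
  rw [ell_eq]
  have h1 := dy_comp (f := nsq) (z := z) (contDiff_nsq.differentiable two_ne_zero z)
    (hasDerivAt_halflog (one_add_nsq_pos z))
  rw [h1, dy_nsq]
  have := one_add_nsq_pos z
  field_simp

lemma hasDerivAt_inv1 {x : ℝ} (hx : 0 < 1 + x) :
    HasDerivAt (fun x : ℝ => 1 / (1 + x)) (-1 / (1 + x) ^ 2) x := by
  have h1 : HasDerivAt (fun x : ℝ => 1 + x) 1 x := by
    simpa using (hasDerivAt_id x).const_add 1
  have this : HasDerivAt (fun x : ℝ => (1 + x)⁻¹) (-1 / (1 + x) ^ 2) x := h1.inv hx.ne'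
  simpa [one_div] using this

lemma lap_ell (z : ℂ) : lap ell z = 2 / (1 + nsq z) ^ 2 := by
  have hd : DifferentiableAt ℝ nsq z := contDiff_nsq.differentiable two_ne_zero z
  have hpos := one_add_nsq_pos z
  have hdi : DifferentiableAt ℝ (fun z => 1 / (1 + nsq z)) z :=
    ((hasDerivAt_inv1 hpos).comp_hasFDerivAt z hd.hasFDerivAt).differentiableAt
  unfold lap
  rw [dx_ell, dy_ell, dx_mul (hasFDerivAt_re z).differentiableAt hdi,
    dy_mul (hasFDerivAt_im z).differentiableAt hdi,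
    dx_comp hd (hasDerivAt_inv1 hpos), dy_comp hd (hasDerivAt_inv1 hpos),
    dx_nsq, dy_nsq, dx_of_hasFDerivAt (hasFDerivAt_re z),
    dy_of_hasFDerivAt (hasFDerivAt_im z)]
  simp only [Complex.reCLM_apply, Complex.imCLM_apply, Complex.one_re, Complex.I_im]
  field_simp
  unfold nsq
  ring

lemma wt_eq (z : ℂ) : wt z = 1 / (1 + nsq z) := by unfold wt; rw [nsq_eq]

lemma lap_ell_nonneg (z : ℂ) : 0 ≤ lap ell z := by
  rw [lap_ell]; have := one_add_nsq_pos z; positivity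
lemma lap_ell_le (z : ℂ) : lap ell z ≤ 2 * wt z := by
  rw [lap_ell, wt_eq, mul_one_div]
  have h := one_add_nsq_pos z
  have h1 : 1 ≤ 1 + nsq z := by unfold nsq; nlinarith [sq_nonneg z.re, sq_nonneg z.im]
  apply div_le_div_of_nonneg_left (by norm_num) h
  nlinarith
lemma gsq_ell_le (z : ℂ) : gsq ell z ≤ wt z := by
  unfold gsq
  rw [dx_ell, dy_ell, wt_eq]
  have h := one_add_nsq_pos z
  have e : (z.re * (1 / (1 + nsq z))) ^ 2 + (z.im * (1 / (1 + nsq z))) ^ 2
      = nsq z / (1 + nsq z) * (1 / (1 + nsq z)) := by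
    unfold nsq; field_simp
  simp only [e]
  have h2 : nsq z / (1 + nsq z) ≤ 1 := by
    rw [div_le_one h]; linarith
  have h3 : 0 ≤ 1 / (1 + nsq z) := by positivity
  nlinarith

lemma gsq_comp_le {h : ℝ → ℝ} {h' : ℝ} {f : ℂ → ℝ} {z : ℂ} (hf : DifferentiableAt ℝ f z)
    (hh : HasDerivAt h h' (f z)) : gsq (fun z => h (f z)) z = h' ^ 2 * gsq f z := by
  unfold gsq
  rw [dx_comp hf hh, dy_comp hf hh]; ring

lemma contDiff_lw (ε l₀ : ℝ) : ContDiff ℝ 1 (lw ε l₀) := by
  unfold lw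
  have h : ContDiff ℝ 1 ell := contDiff_ell.of_le (by norm_num)
  apply contDiff_const.div
  · exact contDiff_const.add (contDiff_const.mul ((h.sub contDiff_const).pow 2))
  · intro z; positivity

lemma gsq_lw_le {ε : ℝ} (hε : 0 < ε) (l₀ : ℝ) (z : ℂ) :
    gsq (lw ε l₀) z ≤ ε ^ 2 * (lw ε l₀ z) ^ 2 * wt z := by
  set y := ell z - l₀ with hy
  have hQ : 0 < 1 + ε ^ 2 * y ^ 2 := by positivity
  have hder : HasDerivAt (fun x : ℝ => 1 / (1 + ε ^ 2 * (x - l₀) ^ 2))
      (-(ε ^ 2 * (2 * y)) / (1 + ε ^ 2 * y ^ 2) ^ 2) (ell z) := by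
    have h0 : HasDerivAt (fun x : ℝ => x - l₀) 1 (ell z) := (hasDerivAt_id _).sub_const _
    have h1 : HasDerivAt (fun x : ℝ => 1 + ε ^ 2 * (x - l₀) ^ 2) (ε ^ 2 * (2 * y)) (ell z) := by
      have := ((h0.pow 2).const_mul (ε ^ 2)).const_add 1
      simpa [hy] using this
    have h2 : HasDerivAt (fun x : ℝ => (1 + ε ^ 2 * (x - l₀) ^ 2)⁻¹) _ (ell z) :=
      h1.inv (by rw [← hy]; exact hQ.ne')
    simpa [one_div, ← hy] using h2
  have h := gsq_comp_le (f := ell) (z := z) (contDiff_ell.differentiable two_ne_zero z) hder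
  have h' : gsq (lw ε l₀) z = (-(ε ^ 2 * (2 * y)) / (1 + ε ^ 2 * y ^ 2) ^ 2) ^ 2 * gsq ell z := h
  rw [h']
  have h3 : (-(ε ^ 2 * (2 * y)) / (1 + ε ^ 2 * y ^ 2) ^ 2) ^ 2 ≤ ε ^ 2 * (lw ε l₀ z) ^ 2 := by
    unfold lw
    rw [← hy]
    have e : (-(ε ^ 2 * (2 * y)) / (1 + ε ^ 2 * y ^ 2) ^ 2) ^ 2
        = ((2 * ε * y / (1 + ε ^ 2 * y ^ 2)) ^ 2) * (ε ^ 2 * (1 / (1 + ε ^ 2 * y ^ 2)) ^ 2) := by
      field_simp
    rw [e]
    have h4 : (2 * ε * y / (1 + ε ^ 2 * y ^ 2)) ^ 2 ≤ 1 := by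
      rw [div_pow, div_le_one (by positivity)]
      nlinarith [sq_nonneg (1 - ε ^ 2 * y ^ 2)]
    have h5 : 0 ≤ ε ^ 2 * (1 / (1 + ε ^ 2 * y ^ 2)) ^ 2 := by positivity
    nlinarith
  have h6 := gsq_ell_le z
  have h7 := gsq_nonneg ell z
  have h8 : 0 ≤ ε ^ 2 * (lw ε l₀ z) ^ 2 := by positivity
  calc _ ≤ ε ^ 2 * (lw ε l₀ z) ^ 2 * gsq ell z := mul_le_mul_of_nonneg_right h3 h7
    _ ≤ _ := mul_le_mul_of_nonneg_left h6 h8

/-- positive part powers -/
noncomputable def pp (n : ℕ) (x : ℝ) : ℝ := (max x 0) ^ (n + 2)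

lemma hasDerivAt_pp (n : ℕ) (x : ℝ) :
    HasDerivAt (pp n) ((n + 2 : ℝ) * (max x 0) ^ (n + 1)) x := by
  rcases lt_trichotomy x 0 with hx | hx | hx
  · have h1 : pp n =ᶠ[𝓝 x] fun _ => 0 := by
      filter_upwards [Iio_mem_nhds hx] with y hy
      unfold pp
      rw [max_eq_right (le_of_lt hy)]
      simp
    have h2 : HasDerivAt (fun _ : ℝ => (0 : ℝ)) 0 x := hasDerivAt_const x 0
    rw [max_eq_right hx.le]
    simpa using h2.congr_of_eventuallyEq h1
  · subst hx
    simp only [max_self, ne_eq, Nat.add_eq_zero_iff, one_ne_zero, and_false, not_false_eq_true,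
      zero_pow, mul_zero]
    rw [hasDerivAt_iff_isLittleO_nhds_zero]
    simp only [zero_add, smul_zero, sub_zero]
    have h0 : pp n 0 = 0 := by simp [pp]
    rw [h0]
    simp only [sub_zero]
    have h1 : (fun h : ℝ => pp n h) =O[𝓝 0] fun h => h ^ (n + 2) := by
      apply Asymptotics.IsBigO.of_bound 1
      apply Eventually.of_forall
      intro h
      unfold pp
      rw [norm_pow, norm_pow, one_mul]
      apply pow_le_pow_left₀ (norm_nonneg _)
      rw [Real.norm_eq_abs, Real.norm_eq_abs]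
      rcases le_total h 0 with hh | hh
      · rw [max_eq_right hh]; simp
      · rw [max_eq_left hh]
    refine h1.trans_isLittleO ?_
    have := Asymptotics.isLittleO_pow_pow (𝕜 := ℝ) (show 1 < n + 2 by omega)
    simpa using this
  · have h1 : pp n =ᶠ[𝓝 x] fun y => y ^ (n + 2) := by
      filter_upwards [Ioi_mem_nhds hx] with y hy
      unfold pp
      rw [max_eq_left (le_of_lt hy)]
    have h2 := hasDerivAt_pow (n + 2) x
    rw [max_eq_left hx.le]
    have h3 := h2.congr_of_eventuallyEq h1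
    push_cast at h3
    simpa using h3

lemma contDiff_pp (n : ℕ) : ContDiff ℝ 1 (pp n) := by
  rw [contDiff_one_iff_deriv]
  refine ⟨fun x => (hasDerivAt_pp n x).differentiableAt, ?_⟩
  have : deriv (pp n) = fun x => (n + 2 : ℝ) * (max x 0) ^ (n + 1) :=
    funext fun x => (hasDerivAt_pp n x).deriv
  rw [this]
  fun_prop

/-- subharmonic functions: some point on each circle has value at least the central value -/
lemma exists_circle_ge {u : ℂ → ℝ} (hu : ContDiff ℝ 2 u) (hsub : ∀ z, 0 ≤ lap u z) {r : ℝ}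
    (hr : 0 < r) : ∃ z, ‖z‖ = r ∧ u 0 ≤ u z := by
  by_contra hcon
  push Not at hcon
  have hS : IsCompact (Metric.sphere (0 : ℂ) r) := isCompact_sphere _ _
  have hSne : (Metric.sphere (0 : ℂ) r).Nonempty := NormedSpace.sphere_nonempty.2 hr.le
  obtain ⟨z1, hz1, hmax1⟩ := hS.exists_isMaxOn hSne hu.continuous.continuousOn
  have hz1' : ‖z1‖ = r := by simpa using hz1
  have hgap := hcon z1 hz1'
  set η := (u 0 - u z1) / (2 * r ^ 2) with hη
  have hη0 : 0 < η := by
    apply div_pos (by linarith) (by positivity)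
  set F : ℂ → ℝ := fun z => u z + η * nsq z with hF
  have hFc : ContDiff ℝ 2 F := hu.add (contDiff_const.mul contDiff_nsq)
  obtain ⟨z2, hz2, hmax2⟩ := (isCompact_closedBall (0 : ℂ) r).exists_isMaxOn
    ⟨0, by simp [hr.le]⟩ hFc.continuous.continuousOn
  have hz2' : ‖z2‖ ≤ r := by simpa using hz2
  have hF0 : F 0 ≤ F z2 := hmax2 (by simp [hr.le])
  have hlt : ‖z2‖ < r := by
    rcases hz2'.lt_or_eq with h | h
    · exact h
    · exfalso
      have h1 : u z2 ≤ u z1 := hmax1 (by simpa using h)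
      have h2 : F z2 = u z2 + η * r ^ 2 := by rw [hF]; simp only [nsq_eq, h]
      have h3 : F 0 = u 0 := by rw [hF]; simp [nsq]
      have h4 : η * r ^ 2 = (u 0 - u z1) / 2 := by
        rw [hη]; field_simp
      rw [h2, h3, h4] at hF0
      linarith
  have hloc : IsLocalMax F z2 := by
    have : Metric.closedBall (0 : ℂ) r ∈ 𝓝 z2 := by
      apply mem_of_superset (Metric.isOpen_ball.mem_nhds
        (show z2 ∈ Metric.ball (0 : ℂ) r by simpa using hlt))
      exact Metric.ball_subset_closedBall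
    exact hmax2.isLocalMax this
  have h1 := lap_nonpos_of_isLocalMax hFc hloc
  have h2 : lap F z2 = lap u z2 + η * 4 := by
    rw [hF, lap_add hu (contDiff_const.mul contDiff_nsq), lap_const_mul η contDiff_nsq, lap_nsq]
  have h3 := hsub z2
  rw [h2] at h1
  linarith

end Q176Had
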