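import Pool.Agent.Q176.Had.Calc

open MeasureTheory Set Filter Topology
open scoped Real

namespace Q176Had

/-- the function `v = -u - (1/2) log (1+|z|^2)` -/
noncomputable def vv (u : ℂ → ℝ) (z : ℂ) : ℝ := (-1) * (u z + ell z)

lemma contDiff_vv {u : ℂ → ℝ} (hu : ContDiff ℝ 2 u) : ContDiff ℝ 2 (vv u) :=
  contDiff_const.mul (hu.add contDiff_ell)

lemma lap_vv {u : ℂ → ℝ} (hu : ContDiff ℝ 2 u) (z : ℂ) :
    lap (vv u) z = -(lap u z + lap ell z) := by
  have h := lap_const_mul (-1) (hu.add contDiff_ell) z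
  have h2 := lap_add hu contDiff_ell z
  have h3 : lap (vv u) z = -1 * lap (fun z => u z + ell z) z := h
  rw [h3, h2]; ring

lemma exp_two_u (u : ℂ → ℝ) (z : ℂ) :
    Real.exp (2 * u z) = Real.exp (-2 * vv u z) * wt z := by
  rw [← exp_ell_sq, ← Real.exp_add]
  congr 1
  unfold vv; ring

lemma neg_lap_vv_le {u : ℂ → ℝ} (hu : ContDiff ℝ 2 u) {c : ℝ} (hc : 0 ≤ c)
    (hcurv : ∀ z, lap u z ≤ c * Real.exp (2 * u z)) {z : ℂ} (hz : 0 ≤ vv u z) :
    - lap (vv u) z ≤ (c + 2) * wt z := by
  rw [lap_vv hu]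
  have h1 := hcurv z
  have h2 := lap_ell_le z
  have h3 : Real.exp (2 * u z) ≤ wt z := by
    rw [exp_two_u]
    have : Real.exp (-2 * vv u z) ≤ 1 := by
      rw [Real.exp_le_one_iff]; linarith
    nlinarith [wt_pos z]
  nlinarith

lemma integrableOn_ball_of_continuous {f : ℂ → ℝ} (hf : Continuous f) (N : ℝ) :
    IntegrableOn f (Metric.ball (0 : ℂ) N) :=
  (hf.continuousOn.integrableOn_compact (isCompact_closedBall (0 : ℂ) N)).mono_set
    Metric.ball_subset_closedBall

set_option maxHeartbeats 4000000 in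
/-- Caccioppoli type inequality -/
lemma caccioppoli {u : ℂ → ℝ} (hu : ContDiff ℝ 2 u) {c : ℝ} (hc : 0 ≤ c)
    (hcurv : ∀ z, lap u z ≤ c * Real.exp (2 * u z)) {K : ℝ}
    {φ : ℂ → ℝ} (hφ : ContDiff ℝ 1 φ) {N : ℝ}
    (hsupp : tsupport φ ⊆ Metric.ball (0 : ℂ) N) (hφ01 : ∀ z, 0 ≤ φ z ∧ φ z ≤ 1)
    (hφg : ∀ z, gsq φ z ≤ K * Real.exp (2 * u z)) {ε : ℝ} (hε : 0 < ε) (l₀ : ℝ)
    {τ : ℝ} (hτ : 0 < τ) {C₀ : ℝ} (hC₀ : 0 ≤ C₀) :
    ∫ z in Metric.ball (0 : ℂ) N, gsq (fun z => (φ z * lw ε l₀ z) * pp 0 (vv u z - C₀)) z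
      ≤ (2 * (c + 2) * τ + 2 * ε ^ 2) * (∫ z in Metric.ball (0 : ℂ) N,
          wt z * ((φ z * lw ε l₀ z) * pp 0 (vv u z - C₀)) ^ 2)
        + (2 * (c + 2) / τ ^ 3 + 8 * K) * ∫ z in Metric.ball (0 : ℂ) N, lw ε l₀ z * wt z := by
  set v := vv u with hv
  have hvc : ContDiff ℝ 2 v := contDiff_vv hu
  have hvc1 : ContDiff ℝ 1 v := hvc.of_le (by norm_num)
  set B := c + 2 with hB
  have hBpos : 0 < B := by rw [hB]; linarith
  set ψ : ℂ → ℝ := fun z => φ z * lw ε l₀ z with hψ
  have hψc : ContDiff ℝ 1 ψ := hφ.mul (contDiff_lw ε l₀)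
  set s : ℂ → ℝ := fun z => pp 0 (v z - C₀) with hs
  set q : ℂ → ℝ := fun z => pp 1 (v z - C₀) with hq
  have hsc : ContDiff ℝ 1 s := (contDiff_pp 0).comp (hvc1.sub contDiff_const)
  have hqc : ContDiff ℝ 1 q := (contDiff_pp 1).comp (hvc1.sub contDiff_const)
  set g : ℂ → ℝ := fun z => (ψ z * ψ z) * q z with hg
  have hgc : ContDiff ℝ 1 g := (hψc.mul hψc).mul hqc
  have hcompact : HasCompactSupport φ := by
    apply HasCompactSupport.intro (isCompact_closedBall (0 : ℂ) N)
    intro z hz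
    by_contra h
    have : z ∈ tsupport φ := subset_tsupport _ h
    exact hz (Metric.ball_subset_closedBall (hsupp this))
  have hψcs : HasCompactSupport ψ := hcompact.mul_right
  have hgcs : HasCompactSupport g := (hψcs.mul_right).mul_right
  have hgsupp : ∀ z, z ∉ Metric.ball (0 : ℂ) N → z ∉ tsupport g := by
    intro z hz hzg
    apply hz
    apply hsupp
    refine closure_mono ?_ hzg
    intro w hw
    simp only [Function.mem_support, hg, hψ] at hw ⊢
    intro h0
    apply hw
    rw [h0]; ring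
  -- derivatives
  have hder : ∀ z, ∃ t ≥ 0, t = max (v z - C₀) 0 ∧ s z = t ^ 2 ∧ q z = t ^ 3 ∧
      dx s z = 2 * t * dx v z ∧ dy s z = 2 * t * dy v z ∧
      dx q z = 3 * t ^ 2 * dx v z ∧ dy q z = 3 * t ^ 2 * dy v z := by
    intro z
    refine ⟨max (v z - C₀) 0, le_max_right _ _, rfl, by simp [hs, pp], by simp [hq, pp], ?_⟩
    have hd : DifferentiableAt ℝ (fun z => v z - C₀) z :=
      (hvc1.sub contDiff_const).differentiable one_ne_zero z
    have ex : dx (fun z => v z - C₀) z = dx v z := by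
      unfold dx; rw [fderiv_sub_const]
    have ey : dy (fun z => v z - C₀) z = dy v z := by
      unfold dy; rw [fderiv_sub_const]
    have h0 := hasDerivAt_pp 0 (v z - C₀)
    have h1 := hasDerivAt_pp 1 (v z - C₀)
    refine ⟨?_, ?_, ?_, ?_⟩
    · have := dx_comp hd h0
      rw [ex] at this
      simpa using this
    · have := dy_comp hd h0
      rw [ey] at this
      simpa using this
    · have := dx_comp hd h1
      rw [ex] at this
      have e : ((1 : ℕ) + 2 : ℝ) = 3 := by norm_num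
      rw [e] at this
      simpa using this
    · have := dy_comp hd h1
      rw [ey] at this
      have e : ((1 : ℕ) + 2 : ℝ) = 3 := by norm_num
      rw [e] at this
      simpa using this
  have hdψ : ∀ z, DifferentiableAt ℝ ψ z := hψc.differentiable one_ne_zero
  have hds : ∀ z, DifferentiableAt ℝ s z := hsc.differentiable one_ne_zero
  have hdq : ∀ z, DifferentiableAt ℝ q z := hqc.differentiable one_ne_zero
  -- pointwise inequality 1
  have hpt1 : ∀ z, gsq (fun z => ψ z * s z) z ≤ 2 * gin v g z + (s z) ^ 2 * gsq ψ z := by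
    intro z
    obtain ⟨t, ht0, -, hst, hqt, d1, d2, d3, d4⟩ := hder z
    have e1 : dx (fun z => ψ z * s z) z = ψ z * (2 * t * dx v z) + t ^ 2 * dx ψ z := by
      rw [dx_mul (hdψ z) (hds z), d1, hst]
    have e2 : dy (fun z => ψ z * s z) z = ψ z * (2 * t * dy v z) + t ^ 2 * dy ψ z := by
      rw [dy_mul (hdψ z) (hds z), d2, hst]
    have hdd : DifferentiableAt ℝ (fun z => ψ z * ψ z) z := (hdψ z).mul (hdψ z)
    have e3 : dx g z = (ψ z * ψ z) * (3 * t ^ 2 * dx v z) + t ^ 3 * (2 * ψ z * dx ψ z) := by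
      rw [hg, dx_mul hdd (hdq z), dx_mul (hdψ z) (hdψ z), d3, hqt]; ring
    have e4 : dy g z = (ψ z * ψ z) * (3 * t ^ 2 * dy v z) + t ^ 3 * (2 * ψ z * dy ψ z) := by
      rw [hg, dy_mul hdd (hdq z), dy_mul (hdψ z) (hdψ z), d4, hqt]; ring
    unfold gsq gin
    rw [e1, e2, e3, e4, hst]
    nlinarith [sq_nonneg (ψ z * t * dx v z), sq_nonneg (ψ z * t * dy v z)]
  -- pointwise inequality 2
  have hpt2 : ∀ z, -2 * (lap v z * g z) + (s z) ^ 2 * gsq ψ z
      ≤ (2 * B * τ + 2 * ε ^ 2) * (wt z * (ψ z * s z) ^ 2)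
        + (2 * B / τ ^ 3 + 8 * K) * (lw ε l₀ z * wt z) := by
    intro z
    obtain ⟨t, ht0, htdef, hst, hqt, -, -, -, -⟩ := hder z
    have hw := wt_pos z
    have hl := lw_pos ε l₀ z
    have hl1 := lw_le_one ε l₀ z
    have hφz := hφ01 z
    have hK : 0 ≤ K := by
      have h1 := hφg z
      have h2 := gsq_nonneg φ z
      have h3 := Real.exp_pos (2 * u z)
      by_contra hneg
      push Not at hneg
      nlinarith
    have hgz : g z = ψ z ^ 2 * t ^ 3 := by rw [hg]; simp only; rw [hqt]; ring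
    have hψz : ψ z = φ z * lw ε l₀ z := rfl
    have hψ2 : ψ z ^ 2 ≤ lw ε l₀ z := by
      rw [hψz, mul_pow]
      have h1 : φ z ^ 2 ≤ 1 := by nlinarith
      have h2 : lw ε l₀ z ^ 2 ≤ lw ε l₀ z := by nlinarith
      have h3 : 0 ≤ lw ε l₀ z ^ 2 := by positivity
      nlinarith
    rcases ht0.eq_or_lt with h0 | hpos
    · rw [hgz, hst, ← h0]
      have : 0 ≤ (2 * B / τ ^ 3 + 8 * K) * (lw ε l₀ z * wt z) := by positivity
      simpa using this
    · have hvt : v z = t + C₀ := by
        rw [htdef] at hpos ⊢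
        rcases le_total (v z - C₀) 0 with h | h
        · rw [max_eq_right h] at hpos; exact absurd hpos (lt_irrefl _)
        · rw [max_eq_left h]; ring
      have hv0 : 0 ≤ vv u z := by rw [← hv, hvt]; linarith
      have hlap := neg_lap_vv_le hu hc hcurv hv0
      rw [← hv, ← hB] at hlap
      have ht3 : t ^ 3 ≤ τ * t ^ 4 + 1 / τ ^ 3 := by
        have hx : 0 < t * τ := mul_pos hpos hτ
        have h1 : (t * τ) ^ 3 ≤ (t * τ) ^ 4 + 1 := by
          set x := t * τ
          rcases le_total x 1 with h | h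
          · have : x ^ 3 ≤ 1 := pow_le_one₀ hx.le h
            have : 0 ≤ x ^ 4 := by positivity
            linarith
          · have : x ^ 3 ≤ x ^ 4 := pow_le_pow_right₀ h (by norm_num)
            linarith
        have h2 : t ^ 3 = (t * τ) ^ 3 / τ ^ 3 := by field_simp
        have h3 : τ * t ^ 4 + 1 / τ ^ 3 = ((t * τ) ^ 4 + 1) / τ ^ 3 := by field_simp
        rw [h2, h3]
        exact div_le_div_of_nonneg_right h1 (by positivity)
      -- first term
      have hT1 : -2 * (lap v z * g z) ≤ 2 * B * τ * (wt z * (ψ z * s z) ^ 2)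
          + 2 * B / τ ^ 3 * (lw ε l₀ z * wt z) := by
        rw [hgz, hst]
        have h1 : -2 * (lap v z * (ψ z ^ 2 * t ^ 3)) = 2 * (ψ z ^ 2 * t ^ 3) * (- lap v z) := by ring
        have h2 : 0 ≤ 2 * (ψ z ^ 2 * t ^ 3) := by positivity
        have h3 : 2 * (ψ z ^ 2 * t ^ 3) * (- lap v z) ≤ 2 * (ψ z ^ 2 * t ^ 3) * (B * wt z) :=
          mul_le_mul_of_nonneg_left hlap h2
        have h4 : 2 * (ψ z ^ 2 * t ^ 3) * (B * wt z)
            ≤ 2 * (ψ z ^ 2 * (τ * t ^ 4 + 1 / τ ^ 3)) * (B * wt z) := by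
          apply mul_le_mul_of_nonneg_right _ (by positivity)
          have := mul_le_mul_of_nonneg_left ht3 (sq_nonneg (ψ z))
          linarith
        have h5 : 2 * (ψ z ^ 2 * (τ * t ^ 4 + 1 / τ ^ 3)) * (B * wt z)
            = 2 * B * τ * (wt z * (ψ z * t ^ 2) ^ 2) + 2 * B / τ ^ 3 * (ψ z ^ 2 * wt z) := by
          field_simp
        have h6 : 2 * B / τ ^ 3 * (ψ z ^ 2 * wt z) ≤ 2 * B / τ ^ 3 * (lw ε l₀ z * wt z) := by
          apply mul_le_mul_of_nonneg_left _ (by positivity)
          exact mul_le_mul_of_nonneg_right hψ2 hw.le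
        rw [h1]
        linarith
      -- second term
      have hgψ : gsq ψ z ≤ 2 * lw ε l₀ z ^ 2 * gsq φ z + 2 * φ z ^ 2 * gsq (lw ε l₀) z := by
        have e1 : dx ψ z = φ z * dx (lw ε l₀) z + lw ε l₀ z * dx φ z :=
          dx_mul (hφ.differentiable one_ne_zero z) ((contDiff_lw ε l₀).differentiable one_ne_zero z)
        have e2 : dy ψ z = φ z * dy (lw ε l₀) z + lw ε l₀ z * dy φ z :=
          dy_mul (hφ.differentiable one_ne_zero z) ((contDiff_lw ε l₀).differentiable one_ne_zero z)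
        unfold gsq
        rw [e1, e2]
        nlinarith [sq_nonneg (φ z * dx (lw ε l₀) z - lw ε l₀ z * dx φ z),
          sq_nonneg (φ z * dy (lw ε l₀) z - lw ε l₀ z * dy φ z)]
      have ht4 : t ^ 4 * Real.exp (2 * u z) ≤ 4 * wt z := by
        rw [exp_two_u, ← hv, hvt]
        have h1 : t ^ 2 ≤ 2 * Real.exp t := by
          have := Real.quadratic_le_exp_of_nonneg hpos.le
          nlinarith
        have h2 : t ^ 4 ≤ 4 * Real.exp (2 * t) := by
          have h3 : t ^ 4 = (t ^ 2) ^ 2 := by ring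
          have h4 : Real.exp (2 * t) = Real.exp t ^ 2 := by
            rw [← Real.exp_nat_mul]; norm_num
          rw [h3, h4]
          have h5 : (0 : ℝ) ≤ t ^ 2 := by positivity
          nlinarith [Real.exp_pos t]
        have h6 : t ^ 4 * Real.exp (-2 * (t + C₀)) ≤ 4 := by
          have h7 : Real.exp (-2 * (t + C₀)) ≤ Real.exp (-2 * t) := by
            apply Real.exp_le_exp.2; linarith
          have h8 : Real.exp (2 * t) * Real.exp (-2 * t) = 1 := by
            rw [← Real.exp_add]; simp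
          have h9 : 0 < Real.exp (-2 * t) := Real.exp_pos _
          have h10 : (0 : ℝ) ≤ t ^ 4 := by positivity
          calc t ^ 4 * Real.exp (-2 * (t + C₀)) ≤ t ^ 4 * Real.exp (-2 * t) :=
                mul_le_mul_of_nonneg_left h7 h10
            _ ≤ 4 * Real.exp (2 * t) * Real.exp (-2 * t) := mul_le_mul_of_nonneg_right h2 h9.le
            _ = 4 := by rw [mul_assoc, h8]; ring
        calc t ^ 4 * (Real.exp (-2 * (t + C₀)) * wt z)
            = (t ^ 4 * Real.exp (-2 * (t + C₀))) * wt z := by ring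
          _ ≤ 4 * wt z := mul_le_mul_of_nonneg_right h6 hw.le
      have hT2 : (s z) ^ 2 * gsq ψ z ≤ 2 * ε ^ 2 * (wt z * (ψ z * s z) ^ 2)
          + 8 * K * (lw ε l₀ z * wt z) := by
        rw [hst]
        have h1 : (t ^ 2) ^ 2 * gsq ψ z
            ≤ (t ^ 2) ^ 2 * (2 * lw ε l₀ z ^ 2 * gsq φ z + 2 * φ z ^ 2 * gsq (lw ε l₀) z) :=
          mul_le_mul_of_nonneg_left hgψ (by positivity)
        have h2 : (t ^ 2) ^ 2 * (2 * lw ε l₀ z ^ 2 * gsq φ z + 2 * φ z ^ 2 * gsq (lw ε l₀) z)
            ≤ (t ^ 2) ^ 2 * (2 * lw ε l₀ z ^ 2 * (K * Real.exp (2 * u z))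
              + 2 * φ z ^ 2 * (ε ^ 2 * (lw ε l₀ z) ^ 2 * wt z)) := by
          apply mul_le_mul_of_nonneg_left _ (by positivity)
          apply add_le_add
          · exact mul_le_mul_of_nonneg_left (hφg z) (by positivity)
          · exact mul_le_mul_of_nonneg_left (gsq_lw_le hε l₀ z) (by positivity)
        have h3 : (t ^ 2) ^ 2 * (2 * lw ε l₀ z ^ 2 * (K * Real.exp (2 * u z))
              + 2 * φ z ^ 2 * (ε ^ 2 * (lw ε l₀ z) ^ 2 * wt z))
            = 2 * lw ε l₀ z ^ 2 * K * (t ^ 4 * Real.exp (2 * u z))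
              + 2 * ε ^ 2 * (wt z * (ψ z * t ^ 2) ^ 2) := by
          rw [hψz]; ring
        have h4 : 2 * lw ε l₀ z ^ 2 * K * (t ^ 4 * Real.exp (2 * u z))
            ≤ 2 * lw ε l₀ z ^ 2 * K * (4 * wt z) :=
          mul_le_mul_of_nonneg_left ht4 (by positivity)
        have h5 : 2 * lw ε l₀ z ^ 2 * K * (4 * wt z) ≤ 8 * K * (lw ε l₀ z * wt z) := by
          have h6 : lw ε l₀ z ^ 2 ≤ lw ε l₀ z := by nlinarith
          have h7 : 0 ≤ 8 * K * wt z := by positivity
          nlinarith
        linarith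
      calc -2 * (lap v z * g z) + (s z) ^ 2 * gsq ψ z
          ≤ (2 * B * τ * (wt z * (ψ z * s z) ^ 2) + 2 * B / τ ^ 3 * (lw ε l₀ z * wt z))
            + (2 * ε ^ 2 * (wt z * (ψ z * s z) ^ 2) + 8 * K * (lw ε l₀ z * wt z)) :=
            add_le_add hT1 hT2
        _ = _ := by ring
  -- integrate
  have hψsc : ContDiff ℝ 1 (fun z => ψ z * s z) := hψc.mul hsc
  have c1 : Continuous (gsq (fun z => ψ z * s z)) := continuous_gsq hψsc
  have c2 : Continuous (fun z => gin v g z) := continuous_gin hvc1 hgc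
  have c3 : Continuous (fun z => (s z) ^ 2 * gsq ψ z) := (hsc.continuous.pow 2).mul (continuous_gsq hψc)
  have c4 : Continuous (fun z => lap v z * g z) := (continuous_lap hvc).mul hgc.continuous
  have c5 : Continuous (fun z => wt z * (ψ z * s z) ^ 2) :=
    continuous_wt.mul (hψsc.continuous.pow 2)
  have c6 : Continuous (fun z => lw ε l₀ z * wt z) := (continuous_lw ε l₀).mul continuous_wt
  have hIBP : ∫ z in Metric.ball (0 : ℂ) N, gin v g z
      = - ∫ z in Metric.ball (0 : ℂ) N, lap v z * g z := by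
    have h1 : ∫ z in Metric.ball (0 : ℂ) N, gin v g z = ∫ z, gin v g z := by
      apply setIntegral_eq_integral_of_forall_compl_eq_zero
      intro z hz
      have hzt := hgsupp z hz
      have hg0 : g =ᶠ[𝓝 z] fun _ => 0 := by
        have := (isClosed_tsupport g).isOpen_compl.mem_nhds hzt
        filter_upwards [this] with w hw
        exact image_eq_zero_of_notMem_tsupport hw
      have : fderiv ℝ g z = 0 := by
        rw [hg0.fderiv_eq]; simp
      unfold gin dx dy
      rw [this]; simp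
    have h2 : ∫ z in Metric.ball (0 : ℂ) N, lap v z * g z = ∫ z, lap v z * g z := by
      apply setIntegral_eq_integral_of_forall_compl_eq_zero
      intro z hz
      rw [image_eq_zero_of_notMem_tsupport (hgsupp z hz), mul_zero]
    rw [h1, h2]
    exact integral_gin hvc hgc hgcs
  calc ∫ z in Metric.ball (0 : ℂ) N, gsq (fun z => ψ z * s z) z
      ≤ ∫ z in Metric.ball (0 : ℂ) N, (2 * gin v g z + (s z) ^ 2 * gsq ψ z) := by
        apply integral_mono_of_nonneg
        · exact Eventually.of_forall (fun z => gsq_nonneg _ _)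
        · exact integrableOn_ball_of_continuous ((continuous_const.mul c2).add c3) N
        · exact Eventually.of_forall hpt1
    _ = ∫ z in Metric.ball (0 : ℂ) N, (-2 * (lap v z * g z) + (s z) ^ 2 * gsq ψ z) := by
        rw [integral_add, integral_add, integral_const_mul, integral_const_mul, hIBP]
        · ring
        · exact integrableOn_ball_of_continuous (continuous_const.mul c4) N
        · exact integrableOn_ball_of_continuous c3 N
        · exact integrableOn_ball_of_continuous (continuous_const.mul c2) N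
        · exact integrableOn_ball_of_continuous c3 N
    _ ≤ ∫ z in Metric.ball (0 : ℂ) N, ((2 * B * τ + 2 * ε ^ 2) * (wt z * (ψ z * s z) ^ 2)
        + (2 * B / τ ^ 3 + 8 * K) * (lw ε l₀ z * wt z)) := by
        apply integral_mono
        · exact integrableOn_ball_of_continuous ((continuous_const.mul c4).add c3) N
        · exact integrableOn_ball_of_continuous
            ((continuous_const.mul c5).add (continuous_const.mul c6)) N
        · exact hpt2
    _ = _ := by
        rw [integral_add, integral_const_mul, integral_const_mul]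
        · exact integrableOn_ball_of_continuous (continuous_const.mul c5) N
        · exact integrableOn_ball_of_continuous (continuous_const.mul c6) N

end Q176Had
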