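import Pool.Agent.Q176.Had.Metric

open MeasureTheory Set Filter Topology
open scoped Real Convolution

namespace Q176Had

/-- completeness of the metric space `(ℂ, gdist lam)` -/
def MetricComplete (lam : ℂ → ℝ) : Prop :=
  ∀ x : ℕ → ℂ, (∀ ε > 0, ∃ N : ℕ, ∀ m ≥ N, ∀ n ≥ N, gdist lam (x m) (x n) < ε) →
    ∃ p : ℂ, Tendsto (fun n => gdist lam (x n) p) atTop (𝓝 0)

variable {lam : ℂ → ℝ}

lemma gdist_self (hlam : Continuous lam) (z : ℂ) : gdist lam z z = 0 := by
  apply le_antisymm _ (gdist_nonneg z z)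
  obtain ⟨M, hM⟩ : ∃ M : ℝ, Real.sqrt (lam z) ≤ M := ⟨_, le_rfl⟩
  have := gdist_le_mul (lam := lam) hlam (z := z) (w := z) (M := M) (by
    intro t _; simpa using hM)
  simpa using this

/-- local bound of the distance by the euclidean distance -/
lemma exists_local_bound (hlam : Continuous lam) (R : ℝ) :
    ∃ M : ℝ, 0 ≤ M ∧ ∀ z w : ℂ, ‖z‖ ≤ R → ‖w‖ ≤ R → gdist lam z w ≤ M * ‖w - z‖ := by
  have hc : Continuous (fun z => Real.sqrt (lam z)) := Real.continuous_sqrt.comp hlam
  obtain ⟨M, hM⟩ := (isCompact_closedBall (0 : ℂ) R).exists_bound_of_continuousOn hc.continuousOn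
  refine ⟨max M 0, le_max_right _ _, ?_⟩
  intro z w hz hw
  apply gdist_le_mul hlam
  intro t ht
  have hconv := convex_closedBall (0 : ℂ) R
  have hmem : z + (t : ℝ) • (w - z) ∈ Metric.closedBall (0 : ℂ) R := by
    apply hconv.add_smul_sub_mem _ _ ht
    · simpa using hz
    · simpa using hw
  have := hM _ hmem
  rw [Real.norm_eq_abs, abs_of_nonneg (Real.sqrt_nonneg _)] at this
  exact this.trans (le_max_left _ _)

lemma tendsto_gdist (hlam : Continuous lam) {x : ℕ → ℂ} {q : ℂ} (hx : Tendsto x atTop (𝓝 q)) :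
    Tendsto (fun n => gdist lam q (x n)) atTop (𝓝 0) := by
  obtain ⟨M, hM0, hM⟩ := exists_local_bound hlam (‖q‖ + 1)
  have h1 : Tendsto (fun n => M * ‖x n - q‖) atTop (𝓝 0) := by
    have : Tendsto (fun n => ‖x n - q‖) atTop (𝓝 0) := by
      have := (hx.sub_const q).norm
      simpa using this
    simpa using this.const_mul M
  apply squeeze_zero' (Eventually.of_forall fun n => gdist_nonneg _ _) _ h1
  have h2 : ∀ᶠ n in atTop, ‖x n - q‖ < 1 := by
    have := (hx.sub_const q).norm
    simp only [sub_self, norm_zero] at this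
    exact this.eventually (gt_mem_nhds one_pos)
  filter_upwards [h2] with n hn
  apply hM
  · linarith
  · have : ‖x n‖ ≤ ‖x n - q‖ + ‖q‖ := by
      have := norm_add_le (x n - q) q
      simpa using this
    linarith

lemma exists_ball_bounded (hlam : Continuous lam) (hpos : ∀ z, 0 < lam z) (p : ℂ) :
    ∃ ε > 0, Bornology.IsBounded {z | gdist lam p z ≤ ε} := by
  let f : ContDiffBump p := ⟨1 / 2, 1, by norm_num, by norm_num⟩
  have hF : ContDiff ℝ 1 (fun z => f z) := f.contDiff (n := 1)
  have hFc : HasCompactSupport (fun z => f z) := f.hasCompactSupport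
  have hsq : Continuous (fun z => Real.sqrt (lam z)) := Real.continuous_sqrt.comp hlam
  have hsq0 : ∀ z, 0 < Real.sqrt (lam z) := fun z => Real.sqrt_pos.2 (hpos z)
  have hqc : Continuous (fun z => ‖fderiv ℝ (fun z => f z) z‖ / Real.sqrt (lam z)) :=
    ((hF.continuous_fderiv one_ne_zero).norm).div hsq (fun z => (hsq0 z).ne')
  have hqcs : HasCompactSupport (fun z => ‖fderiv ℝ (fun z => f z) z‖ / Real.sqrt (lam z)) := by
    have h1 : HasCompactSupport (fderiv ℝ (fun z => f z)) := hFc.fderiv ℝ
    apply h1.mono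
    intro z hz
    simp only [Function.mem_support, ne_eq] at hz ⊢
    intro h0
    apply hz
    rw [h0]; simp
  obtain ⟨C, hC⟩ := hqcs.exists_bound_of_continuous hqc
  have hC' : ∀ z, ‖fderiv ℝ (fun z => f z) z‖ ≤ (|C|) * Real.sqrt (lam z) := by
    intro z
    have h1 := hC z
    rw [Real.norm_eq_abs, abs_of_nonneg (by positivity), div_le_iff₀ (hsq0 z)] at h1
    exact h1.trans (mul_le_mul_of_nonneg_right (le_abs_self _) (hsq0 z).le)
  refine ⟨1 / (2 * (|C| + 1)), by positivity, ?_⟩
  apply (Metric.isBounded_ball (x := p) (r := 1)).subset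
  intro z hz
  have h1 := abs_sub_le_gdist hlam hF (abs_nonneg C) hC' p z
  have h2 : f p = 1 := by
    apply f.one_of_mem_closedBall
    exact Metric.mem_closedBall_self f.rIn_pos.le
  by_contra hcon
  have h3 : f z = 0 := by
    apply f.zero_of_le_dist
    have : ¬ dist z p < 1 := fun h => hcon (by simpa using h)
    exact not_lt.1 this
  simp only [h2, h3] at h1
  have h4 : gdist lam p z ≤ 1 / (2 * (|C| + 1)) := hz
  have h5 : |C| * gdist lam p z ≤ |C| * (1 / (2 * (|C| + 1))) :=
    mul_le_mul_of_nonneg_left h4 (abs_nonneg _)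
  have h6 : |C| * (1 / (2 * (|C| + 1))) < 1 := by
    rw [mul_one_div, div_lt_one (by positivity)]
    have := abs_nonneg C
    linarith
  rw [zero_sub, abs_neg, abs_one] at h1
  linarith

lemma bad_shrink (hlam : Continuous lam) {p : ℂ} {r : ℝ} (hr : 0 < r)
    (hbad : ¬ Bornology.IsBounded {z | gdist lam p z ≤ r}) :
    ∃ q, gdist lam p q ≤ 3 / 4 * r ∧ ¬ Bornology.IsBounded {z | gdist lam q z ≤ 3 / 4 * r} := by
  by_cases hS : Bornology.IsBounded {z | gdist lam p z ≤ 5 / 8 * r}
  · have hex : ∀ n : ℕ, ∃ z, gdist lam p z ≤ r ∧ (n : ℝ) ≤ ‖z‖ := by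
      intro n
      by_contra hcon
      push Not at hcon
      apply hbad
      apply (Metric.isBounded_ball (x := (0 : ℂ)) (r := n)).subset
      intro z hz
      simpa using hcon z hz
    choose z hz1 hz2 using hex
    have hmid : ∀ n, ∃ q, gdist lam p q ≤ 5 / 8 * r ∧ gdist lam q (z n) ≤ 5 / 8 * r := by
      intro n
      obtain ⟨γ, h1, h2, h3, h4⟩ := exists_near (lam := lam) p (z n) (ε := r / 4) (by linarith)
      obtain ⟨q, hq1, hq2⟩ := exists_mid hlam h1
      rw [h2] at hq1
      rw [h3] at hq2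
      have := hz1 n
      exact ⟨q, by linarith, by linarith⟩
    choose q hq1 hq2 using hmid
    obtain ⟨a, ha, φ, hφ, hlim⟩ := tendsto_subseq_of_bounded hS (fun n => hq1 n)
    have hd := tendsto_gdist hlam hlim
    have hev : ∀ᶠ n in atTop, gdist lam a (q (φ n)) < r / 8 :=
      hd.eventually (gt_mem_nhds (by linarith))
    obtain ⟨n₀, hn₀⟩ := hev.exists
    refine ⟨a, ?_, ?_⟩
    · have h1 := gdist_triangle hlam p (q (φ n₀)) a
      rw [gdist_comm (q (φ n₀)) a] at h1
      have h2 := hq1 (φ n₀)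
      linarith
    · intro hb
      obtain ⟨N₀, hN₀⟩ := eventually_atTop.1 hev
      obtain ⟨C, hC⟩ := hb.subset_ball (0 : ℂ)
      obtain ⟨m, hm⟩ := exists_nat_ge C
      set k := max N₀ m with hk
      have h1 := hN₀ k (le_max_left _ _)
      have h2 := gdist_triangle hlam a (q (φ k)) (z (φ k))
      have h3 := hq2 (φ k)
      have h4 : z (φ k) ∈ Metric.ball (0 : ℂ) C := by
        apply hC
        show gdist lam a (z (φ k)) ≤ 3 / 4 * r
        linarith
      have h5 : ‖z (φ k)‖ < C := by simpa using h4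
      have h6 := hz2 (φ k)
      have h7 : m ≤ φ k := (le_max_right N₀ m).trans (hφ.le_apply)
      have h8 : (m : ℝ) ≤ (φ k : ℝ) := by exact_mod_cast h7
      linarith
  · refine ⟨p, ?_, ?_⟩
    · rw [gdist_self hlam]; positivity
    · intro hb
      apply hS
      apply hb.subset
      intro z hz
      have : gdist lam p z ≤ 5 / 8 * r := hz
      show gdist lam p z ≤ 3 / 4 * r
      linarith

/-- Hopf-Rinow: in a complete metric the distance balls are bounded -/
theorem hopf_rinow (hlam : Continuous lam) (hpos : ∀ z, 0 < lam z) (hcomp : MetricComplete lam)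
    (p : ℂ) (r : ℝ) : Bornology.IsBounded {z | gdist lam p z ≤ r} := by
  by_contra hbad0
  -- wlog r > 0
  set r₀ : ℝ := max r 1 with hr₀
  have hr₀pos : 0 < r₀ := lt_of_lt_of_le one_pos (le_max_right _ _)
  have hbad : ¬ Bornology.IsBounded {z | gdist lam p z ≤ r₀} := by
    intro hb
    apply hbad0
    apply hb.subset
    intro z hz
    exact le_trans (show gdist lam p z ≤ r from hz) (le_max_left _ _)
  have hstep : ∀ (n : ℕ) (x : {x : ℂ // ¬ Bornology.IsBounded {z | gdist lam x z ≤ (3 / 4) ^ n * r₀}}),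
      ∃ y : {y : ℂ // ¬ Bornology.IsBounded {z | gdist lam y z ≤ (3 / 4) ^ (n + 1) * r₀}},
        gdist lam x.1 y.1 ≤ (3 / 4) ^ (n + 1) * r₀ := by
    rintro n ⟨x, hx⟩
    obtain ⟨q, h1, h2⟩ := bad_shrink hlam (r := (3 / 4) ^ n * r₀) (by positivity) hx
    have e : 3 / 4 * ((3 / 4) ^ n * r₀) = (3 / 4) ^ (n + 1) * r₀ := by ring
    rw [e] at h1 h2
    exact ⟨⟨q, h2⟩, h1⟩
  choose nxt hnxt using hstep
  obtain ⟨Y, hYb, hX⟩ : ∃ Y : ℕ → ℂ,
      (∀ n, ¬ Bornology.IsBounded {z | gdist lam (Y n) z ≤ (3 / 4) ^ n * r₀}) ∧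
      ∀ n, gdist lam (Y n) (Y (n + 1)) ≤ (3 / 4) ^ (n + 1) * r₀ := by
    let X : (n : ℕ) → {x : ℂ // ¬ Bornology.IsBounded {z | gdist lam x z ≤ (3 / 4) ^ n * r₀}} :=
      fun n => Nat.rec ⟨p, by simpa using hbad⟩ (fun n x => nxt n x) n
    exact ⟨fun n => (X n).1, fun n => (X n).2, fun n => hnxt n (X n)⟩
  have hdist : ∀ m k, gdist lam (Y m) (Y (m + k))
      ≤ 3 * r₀ * ((3 / 4) ^ m - (3 / 4) ^ (m + k)) := by
    intro m k
    induction k with
    | zero => simp [gdist_self hlam]
    | succ k ih =>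
      have h1 := gdist_triangle hlam (Y m) (Y (m + k)) (Y (m + k + 1))
      have h2 := hX (m + k)
      have h3 : (3 / 4 : ℝ) ^ (m + k + 1) = 3 / 4 * (3 / 4) ^ (m + k) := by ring
      rw [h3] at h2
      rw [show m + (k + 1) = m + k + 1 from rfl, h3]
      nlinarith
  have hpow : Tendsto (fun n : ℕ => (3 / 4 : ℝ) ^ n) atTop (𝓝 0) :=
    tendsto_pow_atTop_nhds_zero_of_lt_one (by norm_num) (by norm_num)
  obtain ⟨a, ha⟩ := hcomp Y (by
    intro ε hε
    have h1 : Tendsto (fun n : ℕ => 3 * r₀ * (3 / 4 : ℝ) ^ n) atTop (𝓝 0) := by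
      simpa using hpow.const_mul (3 * r₀)
    obtain ⟨N, hN⟩ := eventually_atTop.1 (h1.eventually (gt_mem_nhds hε))
    refine ⟨N, ?_⟩
    have key : ∀ m ≥ N, ∀ n ≥ m, gdist lam (Y m) (Y n) < ε := by
      intro m hm n hn
      obtain ⟨k, rfl⟩ := Nat.exists_eq_add_of_le hn
      have h2 := hdist m k
      have h3 := hN m hm
      have h4 : (0 : ℝ) ≤ (3 / 4) ^ (m + k) := by positivity
      nlinarith
    intro m hm n hn
    rcases le_total m n with h | h
    · exact key m hm n h
    · rw [gdist_comm]; exact key n hn m h)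
  obtain ⟨ε, hε, hb⟩ := exists_ball_bounded hlam hpos a
  have h1 : Tendsto (fun n : ℕ => (3 / 4 : ℝ) ^ n * r₀ + gdist lam (Y n) a) atTop (𝓝 0) := by
    simpa using (hpow.mul_const r₀).add ha
  obtain ⟨n, hn⟩ := (h1.eventually (gt_mem_nhds hε)).exists
  apply hYb n
  apply hb.subset
  intro z hz
  have h2 := gdist_triangle hlam a (Y n) z
  rw [gdist_comm a (Y n)] at h2
  have h3 : gdist lam (Y n) z ≤ (3 / 4) ^ n * r₀ := hz
  show gdist lam a z ≤ ε
  linarith

lemma gsq_le_norm (f : ℂ → ℝ) (z : ℂ) : gsq f z ≤ 2 * ‖fderiv ℝ f z‖ ^ 2 := by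
  unfold gsq dx dy
  have h1 := (fderiv ℝ f z).le_opNorm 1
  have h2 := (fderiv ℝ f z).le_opNorm Complex.I
  rw [norm_one, mul_one, Real.norm_eq_abs] at h1
  rw [Complex.norm_I, mul_one, Real.norm_eq_abs] at h2
  have h3 : (fderiv ℝ f z 1) ^ 2 ≤ ‖fderiv ℝ f z‖ ^ 2 := by
    rw [← sq_abs]; exact pow_le_pow_left₀ (abs_nonneg _) h1 2
  have h4 : (fderiv ℝ f z Complex.I) ^ 2 ≤ ‖fderiv ℝ f z‖ ^ 2 := by
    rw [← sq_abs]; exact pow_le_pow_left₀ (abs_nonneg _) h2 2
  linarith

set_option maxHeartbeats 1000000 in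
/-- smooth cutoff functions with gradient bounded by the metric -/
theorem exists_cutoff (hlam : Continuous lam) (hpos : ∀ z, 0 < lam z)
    (hb : ∀ r : ℝ, Bornology.IsBounded {z | gdist lam 0 z ≤ r}) {R : ℝ} (hR : 0 < R) :
    ∃ φ : ℂ → ℝ, ContDiff ℝ 1 φ ∧ HasCompactSupport φ ∧ (∀ z, 0 ≤ φ z ∧ φ z ≤ 1) ∧
      (∀ z, ‖z‖ ≤ R → φ z = 1) ∧ ∀ z, gsq φ z ≤ 8 * lam z := by
  set d : ℂ → ℝ := fun z => gdist lam 0 z with hd
  have hdd : ∀ z w, |d z - d w| ≤ gdist lam z w := by
    intro z w
    rw [abs_le]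
    have h1 := gdist_triangle hlam 0 z w
    have h2 := gdist_triangle hlam 0 w z
    rw [gdist_comm w z] at h2
    constructor <;> simp only [hd] <;> linarith
  have hdc : Continuous d := by
    rw [continuous_iff_continuousAt]
    intro q
    apply continuousAt_of_tendsto_nhds (y := d q)
    rw [tendsto_iff_seq_tendsto]
    intro x hx
    have h1 := tendsto_gdist hlam hx
    have h2 : Tendsto (fun n => |d (x n) - d q|) atTop (𝓝 0) := by
      apply squeeze_zero (fun n => abs_nonneg _) _ h1
      intro n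
      rw [abs_sub_comm]
      exact hdd q (x n)
    have h3 : Tendsto (fun n => d (x n) - d q) atTop (𝓝 0) := by
      rwa [tendsto_zero_iff_abs_tendsto_zero]
    have h4 : Tendsto (fun n => d (x n)) atTop (𝓝 (d q)) := by
      simpa using h3.add_const (d q)
    exact h4
  obtain ⟨N₀, hN₀⟩ := (isCompact_closedBall (0 : ℂ) (R + 1)).exists_bound_of_continuousOn
    hdc.continuousOn
  set f : ℂ → ℝ := fun z => max 0 (min 1 (N₀ + 1 - d z)) with hf
  have hfc : Continuous f := continuous_const.max (continuous_const.min (continuous_const.sub hdc))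
  have hf0 : ∀ z, 0 ≤ f z := fun z => le_max_left _ _
  have hf1 : ∀ z, f z ≤ 1 := fun z => max_le zero_le_one (min_le_left _ _)
  have hfone : ∀ z, ‖z‖ ≤ R + 1 → f z = 1 := by
    intro z hz
    have h1 := hN₀ z (by simpa using hz)
    have h2 : d z ≤ N₀ := (le_abs_self _).trans h1
    rw [hf]
    simp only
    rw [min_eq_left (by linarith), max_eq_right zero_le_one]
  obtain ⟨R', hR'⟩ := (hb (N₀ + 1)).subset_ball (0 : ℂ)
  have hfzero : ∀ z, R' ≤ ‖z‖ → f z = 0 := by
    intro z hz
    have h1 : N₀ + 1 < d z := by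
      by_contra hcon
      push Not at hcon
      have : z ∈ Metric.ball (0 : ℂ) R' := hR' hcon
      have : ‖z‖ < R' := by simpa using this
      linarith
    rw [hf]
    simp only
    rw [min_eq_right (by linarith), max_eq_left (by linarith)]
  have hfL : ∀ z w, |f z - f w| ≤ gdist lam z w := by
    intro z w
    refine le_trans ?_ (hdd z w)
    rw [hf]
    simp only
    have h1 := abs_max_sub_max_le_abs (min 1 (N₀ + 1 - d z)) (min 1 (N₀ + 1 - d w)) 0
    have h2 := abs_min_sub_min_le_max 1 (N₀ + 1 - d z) 1 (N₀ + 1 - d w)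
    rw [max_comm 0, max_comm 0]
    refine h1.trans (h2.trans ?_)
    rw [sub_self, abs_zero, show N₀ + 1 - d z - (N₀ + 1 - d w) = -(d z - d w) by ring, abs_neg]
    exact max_le (abs_nonneg _) le_rfl
  have hfcs : HasCompactSupport f := by
    apply HasCompactSupport.intro (isCompact_closedBall (0 : ℂ) R')
    intro z hz
    apply hfzero
    have : ¬ ‖z‖ ≤ R' := by simpa using hz
    linarith
  -- choose the mollification scale
  have hsq : Continuous (fun z => Real.sqrt (lam z)) := Real.continuous_sqrt.comp hlam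
  have hsq0 : ∀ z, 0 < Real.sqrt (lam z) := fun z => Real.sqrt_pos.2 (hpos z)
  set Kc : Set ℂ := Metric.closedBall (0 : ℂ) (|R'| + 4) with hKc
  have hKcc : IsCompact Kc := isCompact_closedBall _ _
  obtain ⟨zm, hzm, hmin⟩ := hKcc.exists_isMinOn ⟨0, by simp [hKc]; positivity⟩ hsq.continuousOn
  set μ := Real.sqrt (lam zm) with hμ
  have hμ0 : 0 < μ := hsq0 zm
  have huc := hKcc.uniformContinuousOn_of_continuous hsq.continuousOn
  rw [Metric.uniformContinuousOn_iff] at huc
  obtain ⟨δ, hδ, hδ2⟩ := huc μ hμ0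
  set h : ℝ := min (δ / 4) 1 with hh
  have hh0 : 0 < h := lt_min (by linarith) one_pos
  have hh1 : h ≤ 1 := min_le_right _ _
  have hhδ : 2 * h < δ := by
    have : h ≤ δ / 4 := min_le_left _ _
    linarith
  let ψ : ContDiffBump (0 : ℂ) := ⟨h / 2, h, by linarith, by linarith⟩
  have hψout : ψ.rOut = h := rfl
  set φ : ℂ → ℝ := (ψ.normed volume ⋆[ContinuousLinearMap.lsmul ℝ ℝ, volume] f) with hφ
  have hφapp : ∀ z, φ z = ∫ t, ψ.normed volume t * f (z - t) := by
    intro z
    rw [hφ, convolution_def]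
    rfl
  have hφc : ContDiff ℝ 1 φ :=
    ψ.hasCompactSupport_normed.contDiff_convolution_left (n := 1) _ ψ.contDiff_normed
      hfc.locallyIntegrable
  have hψc : Continuous (ψ.normed volume) := (ψ.contDiff_normed (n := 0)).continuous
  have hψi : Integrable (ψ.normed volume) :=
    hψc.integrable_of_hasCompactSupport ψ.hasCompactSupport_normed
  have hint : ∀ z, Integrable (fun t => ψ.normed volume t * f (z - t)) := by
    intro z
    apply Continuous.integrable_of_hasCompactSupport
    · exact hψc.mul (hfc.comp (continuous_const.sub continuous_id))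
    · exact (ψ.hasCompactSupport_normed (μ := volume)).mul_right
  have hφone : ∀ z, ‖z‖ ≤ R → φ z = 1 := by
    intro z hz
    rw [hφ, ψ.normed_convolution_eq_right]
    · exact hfone z (by linarith)
    · intro x hx
      have h1 : ‖x - z‖ < h := by
        rw [hψout, mem_ball_iff_norm] at hx
        exact hx
      have h2 : ‖x‖ ≤ ‖x - z‖ + ‖z‖ := by
        have := norm_add_le (x - z) z
        simpa using this
      rw [hfone x (by linarith), hfone z (by linarith)]
  have hφzero : ∀ z, R' + 1 ≤ ‖z‖ → φ z = 0 := by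
    intro z hz
    rw [hφ, ψ.normed_convolution_eq_right]
    · exact hfzero z (by linarith)
    · intro x hx
      have h1 : ‖x - z‖ < h := by
        rw [hψout, mem_ball_iff_norm] at hx
        exact hx
      have h2 : ‖z‖ ≤ ‖x - z‖ + ‖x‖ := by
        have := norm_add_le (z - x) x
        rw [norm_sub_rev] at this
        simpa using this
      rw [hfzero x (by linarith), hfzero z (by linarith)]
  have hφcs : HasCompactSupport φ := by
    apply HasCompactSupport.intro (isCompact_closedBall (0 : ℂ) (R' + 1))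
    intro z hz
    apply hφzero
    have : ¬ ‖z‖ ≤ R' + 1 := by simpa using hz
    linarith
  refine ⟨φ, hφc, hφcs, ?_, hφone, ?_⟩
  · intro z
    rw [hφapp]
    constructor
    · apply integral_nonneg
      intro t
      exact mul_nonneg (ψ.nonneg_normed t) (hf0 _)
    · calc ∫ t, ψ.normed volume t * f (z - t) ≤ ∫ t, ψ.normed volume t := by
            apply integral_mono (hint z) hψi
            intro t
            have := mul_le_mul_of_nonneg_left (hf1 (z - t)) (ψ.nonneg_normed (μ := volume) t)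
            simpa using this
        _ = 1 := ψ.integral_normed
  · intro z₀
    have hfd : ‖fderiv ℝ φ z₀‖ ≤ 2 * Real.sqrt (lam z₀) := by
      rcases le_or_gt ‖z₀‖ (|R'| + 2) with hz₀ | hz₀
      · apply HasFDerivAt.le_of_lip' ((hφc.differentiable one_ne_zero z₀).hasFDerivAt)
          (by have := (hsq0 z₀).le; positivity)
        have hball : Metric.ball z₀ h ∈ 𝓝 z₀ := Metric.ball_mem_nhds _ hh0
        filter_upwards [hball] with z hz
        have hzz : ‖z - z₀‖ < h := by rwa [mem_ball_iff_norm] at hz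
        rw [hφapp, hφapp, ← integral_sub (hint z) (hint z₀), Real.norm_eq_abs]
        have hb1 : ∀ t, |ψ.normed volume t * f (z - t) - ψ.normed volume t * f (z₀ - t)|
            ≤ ψ.normed volume t * (2 * Real.sqrt (lam z₀) * ‖z - z₀‖) := by
          intro t
          rw [← mul_sub, abs_mul, abs_of_nonneg (ψ.nonneg_normed t)]
          by_cases ht : t ∈ Metric.ball (0 : ℂ) h
          · apply mul_le_mul_of_nonneg_left _ (ψ.nonneg_normed t)
            have ht' : ‖t‖ < h := by simpa using ht
            rw [abs_sub_comm]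
            refine (hfL (z₀ - t) (z - t)).trans ?_
            have e : (z - t) - (z₀ - t) = z - z₀ := by ring
            rw [← e]
            apply gdist_le_mul hlam
            intro s hs
            rw [e]
            have hn : ‖(z₀ - t + s • (z - z₀)) - z₀‖ < 2 * h := by
              have e2 : (z₀ - t + s • (z - z₀)) - z₀ = s • (z - z₀) - t := by ring
              rw [e2]
              calc ‖s • (z - z₀) - t‖ ≤ ‖s • (z - z₀)‖ + ‖t‖ := norm_sub_le _ _
                _ ≤ ‖z - z₀‖ + ‖t‖ := by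
                    rw [norm_smul, Real.norm_eq_abs, abs_of_nonneg hs.1]
                    have := mul_le_mul_of_nonneg_right hs.2 (norm_nonneg (z - z₀))
                    linarith
                _ < 2 * h := by linarith
            set w := z₀ - t + s • (z - z₀) with hw
            have hwK : w ∈ Kc := by
              have : ‖w‖ ≤ ‖w - z₀‖ + ‖z₀‖ := by
                have := norm_add_le (w - z₀) z₀
                simpa using this
              have h3 : ‖w‖ ≤ |R'| + 4 := by linarith
              simpa [hKc] using h3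
            have hzK : z₀ ∈ Kc := by
              have h3 : ‖z₀‖ ≤ |R'| + 4 := by linarith
              simpa [hKc] using h3
            have h4 := hδ2 w hwK z₀ hzK (by rw [dist_eq_norm]; linarith)
            rw [Real.dist_eq] at h4
            have h5 : μ ≤ Real.sqrt (lam z₀) := hmin hzK
            have h6 := (abs_lt.1 h4).2
            linarith
          · have : ψ.normed volume t = 0 := by
              have h1 : t ∉ Function.support (ψ.normed volume) := by
                rw [ψ.support_normed_eq]; exact ht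
              simpa using h1
            rw [this]; simp
        calc |∫ t, (ψ.normed volume t * f (z - t) - ψ.normed volume t * f (z₀ - t))|
            ≤ ∫ t, |ψ.normed volume t * f (z - t) - ψ.normed volume t * f (z₀ - t)| :=
              abs_integral_le_integral_abs
          _ ≤ ∫ t, ψ.normed volume t * (2 * Real.sqrt (lam z₀) * ‖z - z₀‖) := by
              apply integral_mono ((hint z).sub (hint z₀)).abs (hψi.mul_const _)
              exact hb1
          _ = 2 * Real.sqrt (lam z₀) * ‖z - z₀‖ := by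
              rw [integral_mul_const, ψ.integral_normed, one_mul]
      · have hev : φ =ᶠ[𝓝 z₀] fun _ => 0 := by
          have hopen : IsOpen {z : ℂ | |R'| + 2 < ‖z‖} := isOpen_lt continuous_const continuous_norm
          filter_upwards [hopen.mem_nhds hz₀] with z hz
          apply hφzero
          have h1 : |R'| + 2 < ‖z‖ := hz
          have h2 := le_abs_self R'
          linarith
        rw [hev.fderiv_eq]
        simp
    have h1 := gsq_le_norm φ z₀
    have h2 : ‖fderiv ℝ φ z₀‖ ^ 2 ≤ (2 * Real.sqrt (lam z₀)) ^ 2 :=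
      pow_le_pow_left₀ (norm_nonneg _) hfd 2
    have h3 : (2 * Real.sqrt (lam z₀)) ^ 2 = 4 * lam z₀ := by
      rw [mul_pow, Real.sq_sqrt (hpos z₀).le]; norm_num
    linarith

end Q176Had
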