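import Pool.Agent.Q176.Had.Basic

open MeasureTheory Set Filter Topology
open scoped Real

namespace Q176Had

/-- `lam`-length of the curve `γ` on `[0,1]` for the metric `lam (dx^2+dy^2)` -/
noncomputable def glen (lam : ℂ → ℝ) (γ : ℝ → ℂ) : ℝ :=
  ∫ t in (0 : ℝ)..1, Real.sqrt (lam (γ t)) * ‖deriv γ t‖

/-- Riemannian distance of the metric `lam (dx^2+dy^2)` -/
noncomputable def gdist (lam : ℂ → ℝ) (z w : ℂ) : ℝ :=
  sInf {L | ∃ γ : ℝ → ℂ, ContDiff ℝ 1 γ ∧ γ 0 = z ∧ γ 1 = w ∧ L = glen lam γ}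

variable {lam : ℂ → ℝ}

lemma glen_nonneg (γ : ℝ → ℂ) : 0 ≤ glen lam γ := by
  apply intervalIntegral.integral_nonneg zero_le_one
  intro t _
  positivity

lemma continuous_integrand (hlam : Continuous lam) {γ : ℝ → ℂ} (hγ : ContDiff ℝ 1 γ) :
    Continuous (fun t => Real.sqrt (lam (γ t)) * ‖deriv γ t‖) :=
  ((Real.continuous_sqrt.comp (hlam.comp hγ.continuous))).mul
    (hγ.continuous_deriv le_rfl).norm

lemma bddBelow_len (z w : ℂ) :
    BddBelow {L | ∃ γ : ℝ → ℂ, ContDiff ℝ 1 γ ∧ γ 0 = z ∧ γ 1 = w ∧ L = glen lam γ} :=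
  ⟨0, by rintro L ⟨γ, -, -, -, rfl⟩; exact glen_nonneg γ⟩

lemma contDiff_segment (z w : ℂ) : ContDiff ℝ 1 (fun t : ℝ => z + (t : ℝ) • (w - z)) :=
  contDiff_const.add (contDiff_id.smul contDiff_const)

lemma nonempty_len (z w : ℂ) :
    {L | ∃ γ : ℝ → ℂ, ContDiff ℝ 1 γ ∧ γ 0 = z ∧ γ 1 = w ∧ L = glen lam γ}.Nonempty :=
  ⟨_, fun t : ℝ => z + (t : ℝ) • (w - z), contDiff_segment z w, by simp, by simp, rfl⟩

lemma gdist_nonneg (z w : ℂ) : 0 ≤ gdist lam z w :=
  le_csInf (nonempty_len z w) (by rintro L ⟨γ, -, -, -, rfl⟩; exact glen_nonneg γ)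

lemma gdist_le_glen {γ : ℝ → ℂ} (hγ : ContDiff ℝ 1 γ) : gdist lam (γ 0) (γ 1) ≤ glen lam γ :=
  csInf_le (bddBelow_len _ _) ⟨γ, hγ, rfl, rfl, rfl⟩

lemma exists_near (z w : ℂ) {ε : ℝ} (hε : 0 < ε) :
    ∃ γ : ℝ → ℂ, ContDiff ℝ 1 γ ∧ γ 0 = z ∧ γ 1 = w ∧ glen lam γ < gdist lam z w + ε := by
  obtain ⟨L, ⟨γ, h1, h2, h3, rfl⟩, h4⟩ :=
    exists_lt_of_csInf_lt (nonempty_len (lam := lam) z w)
      (show sInf _ < gdist lam z w + ε by unfold gdist; linarith)
  exact ⟨γ, h1, h2, h3, h4⟩

lemma gdist_le_of_forall {z w : ℂ} {a : ℝ}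
    (h : ∀ ε > 0, gdist lam z w ≤ a + ε) : gdist lam z w ≤ a := le_of_forall_pos_le_add h

/-- reparametrization -/
lemma integral_reparam (hlam : Continuous lam) {γ : ℝ → ℂ} (hγ : ContDiff ℝ 1 γ) {h : ℝ → ℝ}
    (hh : ContDiff ℝ 1 h) (hmono : Monotone h) (a b : ℝ) :
    ∫ t in a..b, Real.sqrt (lam (γ (h t))) * ‖deriv (fun t => γ (h t)) t‖
      = ∫ t in (h a)..(h b), Real.sqrt (lam (γ t)) * ‖deriv γ t‖ := by
  rw [← intervalIntegral.integral_comp_mul_deriv (f := h) (f' := deriv h)
    (g := fun t => Real.sqrt (lam (γ t)) * ‖deriv γ t‖)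
    (fun x _ => (hh.differentiable one_ne_zero x).hasDerivAt)
    (hh.continuous_deriv le_rfl).continuousOn (continuous_integrand hlam hγ)]
  congr 1
  funext t
  have h1 : HasDerivAt (fun t => γ (h t)) (deriv h t • deriv γ (h t)) t :=
    ((hγ.differentiable one_ne_zero (h t)).hasDerivAt).scomp t
      ((hh.differentiable one_ne_zero t).hasDerivAt)
  rw [h1.deriv, norm_smul, Real.norm_eq_abs, abs_of_nonneg hmono.deriv_nonneg]
  simp only [Function.comp]
  ring

lemma gdist_comm_le (z w : ℂ) : gdist lam w z ≤ gdist lam z w := by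
  apply gdist_le_of_forall
  intro ε hε
  obtain ⟨γ, h1, h2, h3, h4⟩ := exists_near (lam := lam) z w hε
  set γ' : ℝ → ℂ := fun t => γ (1 - t) with hγ'
  have hc : ContDiff ℝ 1 γ' := h1.comp (contDiff_const.sub contDiff_id)
  have e : glen lam γ' = glen lam γ := by
    unfold glen
    have := intervalIntegral.integral_comp_sub_left
      (fun t => Real.sqrt (lam (γ t)) * ‖deriv γ t‖) (1 : ℝ) (a := 0) (b := 1)
    rw [sub_self, sub_zero] at this
    rw [← this]
    congr 1
    funext t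
    have hd : HasDerivAt (fun t : ℝ => 1 - t) (-1) t := by
      simpa using (hasDerivAt_id t).const_sub 1
    have h5 : HasDerivAt γ' ((-1 : ℝ) • deriv γ (1 - t)) t :=
      ((h1.differentiable one_ne_zero (1 - t)).hasDerivAt).scomp t hd
    rw [h5.deriv]
    simp only [norm_smul, norm_neg, norm_one, one_mul]
    rfl
  have := gdist_le_glen (lam := lam) hc
  rw [e] at this
  have e0 : γ' 0 = w := by simp [hγ', h3]
  have e1 : γ' 1 = z := by simp [hγ', h2]
  rw [e0, e1] at this
  linarith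

lemma gdist_comm (z w : ℂ) : gdist lam z w = gdist lam w z :=
  le_antisymm (gdist_comm_le w z) (gdist_comm_le z w)

lemma deriv_smoothTransition_of_nonpos {x : ℝ} (hx : x ≤ 0) :
    deriv Real.smoothTransition x = 0 := by
  apply IsLocalMin.deriv_eq_zero
  apply Eventually.of_forall
  intro y
  rw [Real.smoothTransition.zero_of_nonpos hx]
  exact Real.smoothTransition.nonneg y

lemma deriv_smoothTransition_of_one_le {x : ℝ} (hx : 1 ≤ x) :
    deriv Real.smoothTransition x = 0 := by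
  apply IsLocalMax.deriv_eq_zero
  apply Eventually.of_forall
  intro y
  rw [Real.smoothTransition.one_of_one_le hx]
  exact Real.smoothTransition.le_one y

lemma gdist_triangle (hlam : Continuous lam) (z w p : ℂ) :
    gdist lam z p ≤ gdist lam z w + gdist lam w p := by
  apply gdist_le_of_forall
  intro ε hε
  obtain ⟨γ₁, a1, a2, a3, a4⟩ := exists_near (lam := lam) z w (half_pos hε)
  obtain ⟨γ₂, b1, b2, b3, b4⟩ := exists_near (lam := lam) w p (half_pos hε)
  set h₁ : ℝ → ℝ := fun t => Real.smoothTransition (2 * t) with hh₁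
  set h₂ : ℝ → ℝ := fun t => Real.smoothTransition (2 * t - 1) with hh₂
  have hst : ContDiff ℝ 1 Real.smoothTransition := Real.smoothTransition.contDiff (n := 1)
  have c1 : ContDiff ℝ 1 h₁ := hst.comp (contDiff_const.mul contDiff_id)
  have c2 : ContDiff ℝ 1 h₂ := hst.comp ((contDiff_const.mul contDiff_id).sub contDiff_const)
  have m1 : Monotone h₁ := Real.smoothTransition.monotone.comp
    (show Monotone (fun t : ℝ => 2 * t) from fun x y hxy => by
      show 2 * x ≤ 2 * y
      linarith)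
  have m2 : Monotone h₂ := Real.smoothTransition.monotone.comp
    (show Monotone (fun t : ℝ => 2 * t - 1) from fun x y hxy => by
      show 2 * x - 1 ≤ 2 * y - 1
      linarith)
  have d1 : ∀ t, HasDerivAt h₁ (deriv Real.smoothTransition (2 * t) * 2) t := by
    intro t
    have h2t : HasDerivAt (fun t : ℝ => 2 * t) 2 t := by simpa using (hasDerivAt_id t).const_mul 2
    exact ((hst.differentiable one_ne_zero (2 * t)).hasDerivAt).comp t h2t
  have d2 : ∀ t, HasDerivAt h₂ (deriv Real.smoothTransition (2 * t - 1) * 2) t := by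
    intro t
    have h2t : HasDerivAt (fun t : ℝ => 2 * t - 1) 2 t := by
      simpa using ((hasDerivAt_id t).const_mul 2).sub_const 1
    exact ((hst.differentiable one_ne_zero (2 * t - 1)).hasDerivAt).comp t h2t
  have g1 : ∀ t, HasDerivAt (fun t => γ₁ (h₁ t)) ((deriv Real.smoothTransition (2 * t) * 2) • deriv γ₁ (h₁ t)) t :=
    fun t => ((a1.differentiable one_ne_zero (h₁ t)).hasDerivAt).scomp t (d1 t)
  have g2 : ∀ t, HasDerivAt (fun t => γ₂ (h₂ t)) ((deriv Real.smoothTransition (2 * t - 1) * 2) • deriv γ₂ (h₂ t)) t :=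
    fun t => ((b1.differentiable one_ne_zero (h₂ t)).hasDerivAt).scomp t (d2 t)
  set γ : ℝ → ℂ := fun t => γ₁ (h₁ t) + γ₂ (h₂ t) - w with hγ
  have hc : ContDiff ℝ 1 γ := ((a1.comp c1).add (b1.comp c2)).sub contDiff_const
  have gd : ∀ t, deriv γ t = (deriv Real.smoothTransition (2 * t) * 2) • deriv γ₁ (h₁ t)
      + (deriv Real.smoothTransition (2 * t - 1) * 2) • deriv γ₂ (h₂ t) := fun t =>
    (((g1 t).add (g2 t)).sub_const w).deriv
  have left : ∀ t ≤ (1 / 2 : ℝ), γ t = γ₁ (h₁ t) ∧ deriv γ t = deriv (fun t => γ₁ (h₁ t)) t := by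
    intro t ht
    have e1 : h₂ t = 0 := Real.smoothTransition.zero_of_nonpos (by linarith)
    have e2 : deriv Real.smoothTransition (2 * t - 1) = 0 :=
      deriv_smoothTransition_of_nonpos (by linarith)
    constructor
    · rw [hγ]; simp only; rw [e1, b2]; ring
    · rw [gd t, (g1 t).deriv, e2]; simp
  have right : ∀ t, (1 / 2 : ℝ) ≤ t → γ t = γ₂ (h₂ t) ∧ deriv γ t = deriv (fun t => γ₂ (h₂ t)) t := by
    intro t ht
    have e1 : h₁ t = 1 := Real.smoothTransition.one_of_one_le (by linarith)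
    have e2 : deriv Real.smoothTransition (2 * t) = 0 :=
      deriv_smoothTransition_of_one_le (by linarith)
    constructor
    · rw [hγ]; simp only; rw [e1, a3]; ring
    · rw [gd t, (g2 t).deriv, e2]; simp
  have hint := continuous_integrand hlam hc
  have hlen : glen lam γ = glen lam γ₁ + glen lam γ₂ := by
    have s1 : ∫ t in (0 : ℝ)..(1 / 2), Real.sqrt (lam (γ t)) * ‖deriv γ t‖ = glen lam γ₁ := by
      have e : ∫ t in (0 : ℝ)..(1 / 2), Real.sqrt (lam (γ t)) * ‖deriv γ t‖
          = ∫ t in (0 : ℝ)..(1 / 2), Real.sqrt (lam (γ₁ (h₁ t))) * ‖deriv (fun t => γ₁ (h₁ t)) t‖ := by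
        apply intervalIntegral.integral_congr
        intro t ht
        rw [uIcc_of_le (by norm_num)] at ht
        obtain ⟨l1, l2⟩ := left t ht.2
        simp only
        rw [l1, l2]
      rw [e, integral_reparam hlam a1 c1 m1]
      have e1 : h₁ 0 = 0 := by simp [hh₁]
      have e2 : h₁ (1 / 2) = 1 := by simp [hh₁]
      rw [e1, e2]; rfl
    have s2 : ∫ t in (1 / 2 : ℝ)..1, Real.sqrt (lam (γ t)) * ‖deriv γ t‖ = glen lam γ₂ := by
      have e : ∫ t in (1 / 2 : ℝ)..1, Real.sqrt (lam (γ t)) * ‖deriv γ t‖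
          = ∫ t in (1 / 2 : ℝ)..1, Real.sqrt (lam (γ₂ (h₂ t))) * ‖deriv (fun t => γ₂ (h₂ t)) t‖ := by
        apply intervalIntegral.integral_congr
        intro t ht
        rw [uIcc_of_le (by norm_num)] at ht
        obtain ⟨l1, l2⟩ := right t ht.1
        simp only
        rw [l1, l2]
      rw [e, integral_reparam hlam b1 c2 m2]
      have e1 : h₂ (1 / 2) = 0 := by simp [hh₂]
      have e2 : h₂ 1 = 1 := by
        show Real.smoothTransition (2 * 1 - 1) = 1
        norm_num
      rw [e1, e2]; rfl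
    unfold glen at s1 s2 ⊢
    rw [← s1, ← s2]
    exact (intervalIntegral.integral_add_adjacent_intervals (hint.intervalIntegrable _ _)
      (hint.intervalIntegrable _ _)).symm
  have hle := gdist_le_glen (lam := lam) hc
  have e0 : γ 0 = z := by
    rw [(left 0 (by norm_num)).1]
    have : h₁ 0 = 0 := by simp [hh₁]
    rw [this, a2]
  have e1 : γ 1 = p := by
    rw [(right 1 (by norm_num)).1]
    have : h₂ 1 = 1 := by
      show Real.smoothTransition (2 * 1 - 1) = 1
      norm_num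
    rw [this, b3]
  rw [e0, e1, hlen] at hle
  linarith

/-- local Lipschitz bound -/
lemma gdist_le_mul (hlam : Continuous lam) {z w : ℂ} {M : ℝ}
    (h : ∀ t ∈ Icc (0 : ℝ) 1, Real.sqrt (lam (z + (t : ℝ) • (w - z))) ≤ M) :
    gdist lam z w ≤ M * ‖w - z‖ := by
  have hc := contDiff_segment z w
  have h1 := gdist_le_glen (lam := lam) hc
  simp only [zero_smul, add_zero, one_smul, add_sub_cancel] at h1
  refine h1.trans ?_
  unfold glen
  have hd : ∀ t : ℝ, deriv (fun t : ℝ => z + (t : ℝ) • (w - z)) t = w - z := by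
    intro t
    have := ((hasDerivAt_id t).smul_const (w - z)).const_add z
    simpa using this.deriv
  calc ∫ t in (0 : ℝ)..1, Real.sqrt (lam (z + (t : ℝ) • (w - z)))
        * ‖deriv (fun t : ℝ => z + (t : ℝ) • (w - z)) t‖
      ≤ ∫ t in (0 : ℝ)..1, M * ‖w - z‖ := by
        apply intervalIntegral.integral_mono_on zero_le_one
          ((continuous_integrand hlam hc).intervalIntegrable _ _)
          (continuous_const.intervalIntegrable _ _)
        intro t ht
        rw [hd t]
        exact mul_le_mul_of_nonneg_right (h t ht) (norm_nonneg _)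
    _ = M * ‖w - z‖ := by simp

/-- functions with gradient controlled by the metric are Lipschitz -/
lemma abs_sub_le_gdist (hlam : Continuous lam) {F : ℂ → ℝ} (hF : ContDiff ℝ 1 F) {κ : ℝ}
    (hκ : 0 ≤ κ) (h : ∀ z, ‖fderiv ℝ F z‖ ≤ κ * Real.sqrt (lam z)) (z w : ℂ) :
    |F w - F z| ≤ κ * gdist lam z w := by
  have key : ∀ γ : ℝ → ℂ, ContDiff ℝ 1 γ → γ 0 = z → γ 1 = w → |F w - F z| ≤ κ * glen lam γ := by
    intro γ hγ h0 h1
    have hd : ∀ t, HasDerivAt (fun t => F (γ t)) (fderiv ℝ F (γ t) (deriv γ t)) t := fun t =>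
      ((hF.differentiable one_ne_zero (γ t)).hasFDerivAt).comp_hasDerivAt t
        ((hγ.differentiable one_ne_zero t).hasDerivAt)
    have hcont : Continuous (fun t => fderiv ℝ F (γ t) (deriv γ t)) :=
      ((hF.continuous_fderiv one_ne_zero).comp hγ.continuous).clm_apply (hγ.continuous_deriv le_rfl)
    have e : ∫ t in (0 : ℝ)..1, fderiv ℝ F (γ t) (deriv γ t) = F w - F z := by
      rw [intervalIntegral.integral_eq_sub_of_hasDerivAt (fun t _ => hd t)
        (hcont.intervalIntegrable _ _), h0, h1]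
    rw [← e, glen, ← intervalIntegral.integral_const_mul]
    have h2 : |∫ t in (0 : ℝ)..1, fderiv ℝ F (γ t) (deriv γ t)|
        ≤ ∫ t in (0 : ℝ)..1, |fderiv ℝ F (γ t) (deriv γ t)| :=
      intervalIntegral.abs_integral_le_integral_abs zero_le_one
    refine h2.trans ?_
    apply intervalIntegral.integral_mono_on zero_le_one (hcont.abs.intervalIntegrable _ _)
      ((continuous_const.mul (continuous_integrand hlam hγ)).intervalIntegrable _ _)
    intro t _
    have h3 := (fderiv ℝ F (γ t)).le_opNorm (deriv γ t)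
    rw [Real.norm_eq_abs] at h3
    calc |fderiv ℝ F (γ t) (deriv γ t)| ≤ ‖fderiv ℝ F (γ t)‖ * ‖deriv γ t‖ := h3
      _ ≤ (κ * Real.sqrt (lam (γ t))) * ‖deriv γ t‖ :=
          mul_le_mul_of_nonneg_right (h (γ t)) (norm_nonneg _)
      _ = κ * (Real.sqrt (lam (γ t)) * ‖deriv γ t‖) := by ring
  apply le_of_forall_pos_le_add
  intro ε hε
  obtain ⟨γ, h1, h2, h3, h4⟩ := exists_near (lam := lam) z w (ε := ε / (κ + 1)) (by positivity)
  have h5 := key γ h1 h2 h3
  have h6 : κ * glen lam γ ≤ κ * (gdist lam z w + ε / (κ + 1)) :=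
    mul_le_mul_of_nonneg_left h4.le hκ
  have h7 : κ * (ε / (κ + 1)) ≤ ε := by
    rw [mul_div_assoc', div_le_iff₀ (by positivity)]
    nlinarith
  linarith

/-- midpoints of curves -/
lemma exists_mid (hlam : Continuous lam) {γ : ℝ → ℂ} (hγ : ContDiff ℝ 1 γ) :
    ∃ q : ℂ, gdist lam (γ 0) q ≤ glen lam γ / 2 ∧ gdist lam q (γ 1) ≤ glen lam γ / 2 := by
  set f : ℝ → ℝ := fun t => Real.sqrt (lam (γ t)) * ‖deriv γ t‖ with hf
  have hfc : Continuous f := continuous_integrand hlam hγ
  set G : ℝ → ℝ := fun s => ∫ t in (0 : ℝ)..s, f t with hG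
  have hGc : Continuous G := by
    rw [hG]
    exact intervalIntegral.continuous_primitive (fun a b => hfc.intervalIntegrable a b) 0
  have hG0 : G 0 = 0 := by simp [hG]
  have hG1 : G 1 = glen lam γ := rfl
  have hn := glen_nonneg (lam := lam) γ
  obtain ⟨s, hs, hGs⟩ : ∃ s ∈ Icc (0 : ℝ) 1, G s = glen lam γ / 2 := by
    have := intermediate_value_Icc (zero_le_one' ℝ) hGc.continuousOn
    apply this
    rw [hG0, hG1]
    constructor <;> linarith
  refine ⟨γ s, ?_, ?_⟩
  · -- first half : γ(s t)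
    have hc : ContDiff ℝ 1 (fun t : ℝ => s * t) := contDiff_const.mul contDiff_id
    have hm : Monotone (fun t : ℝ => s * t) := fun x y hxy => mul_le_mul_of_nonneg_left hxy hs.1
    have h1 := gdist_le_glen (lam := lam) (hγ.comp hc)
    have h2 := integral_reparam hlam hγ hc hm 0 1
    simp only [mul_zero, mul_one] at h2
    have h3 : glen lam (γ ∘ fun t : ℝ => s * t) = G s := h2
    rw [h3, hGs] at h1
    simpa using h1
  · have hc : ContDiff ℝ 1 (fun t : ℝ => s + (1 - s) * t) :=
      contDiff_const.add (contDiff_const.mul contDiff_id)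
    have hm : Monotone (fun t : ℝ => s + (1 - s) * t) := fun x y hxy => by
      have := mul_le_mul_of_nonneg_left hxy (sub_nonneg.2 hs.2)
      simp only; linarith
    have h1 := gdist_le_glen (lam := lam) (hγ.comp hc)
    have h2 := integral_reparam hlam hγ hc hm 0 1
    simp only [mul_zero, mul_one, add_zero, add_sub_cancel] at h2
    have h3 : glen lam (γ ∘ fun t : ℝ => s + (1 - s) * t) = ∫ t in s..1, f t := h2
    have h4 : G s + ∫ t in s..1, f t = G 1 :=
      intervalIntegral.integral_add_adjacent_intervals (hfc.intervalIntegrable _ _)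
        (hfc.intervalIntegrable _ _)
    rw [h3] at h1
    have h5 : (∫ t in s..1, f t) = glen lam γ / 2 := by linarith
    rw [h5] at h1
    simpa using h1

end Q176Had
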