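import Pool.Agent.Q176.Had.Basic

open MeasureTheory Set Filter Topology
open scoped Real

namespace Q176Had

/-- point with polar coordinates (r, θ) -/
noncomputable def cpt (r θ : ℝ) : ℂ := r * (Real.cos θ + Real.sin θ * Complex.I)

lemma continuous_cpt : Continuous (fun p : ℝ × ℝ => cpt p.1 p.2) := by
  unfold cpt; fun_prop

lemma norm_cpt (r θ : ℝ) : ‖cpt r θ‖ = |r| := by
  have h := Complex.norm_polarCoord_symm (r, θ)
  rw [Complex.polarCoord_symm_apply] at h
  exact h

lemma exists_cpt (z : ℂ) : ∃ θ ∈ Icc (-π) π, z = cpt ‖z‖ θ := by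
  refine ⟨z.arg, ⟨(Complex.neg_pi_lt_arg z).le, Complex.arg_le_pi z⟩, ?_⟩
  have := Complex.norm_mul_cos_add_sin_mul_I z
  unfold cpt
  rw [Complex.ofReal_cos, Complex.ofReal_sin]
  exact this.symm

lemma integral_ball_polar {f : ℂ → ℝ} (hf : Continuous f) {N : ℝ} (hN : 0 < N) :
    ∫ z in Metric.ball (0 : ℂ) N, f z
      = ∫ r in (0 : ℝ)..N, ∫ θ in (-π)..π, r * f (cpt r θ) := by
  have hpi : (-π : ℝ) ≤ π := by linarith [Real.pi_pos]
  rw [← integral_indicator Metric.isOpen_ball.measurableSet,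
    ← Complex.integral_comp_polarCoord_symm]
  rw [polarCoord_target]
  set G : ℝ × ℝ → ℝ := fun p => p.1 * f (cpt p.1 p.2) with hG
  have hGc : Continuous G := continuous_fst.mul (hf.comp continuous_cpt)
  have hset : MeasurableSet (Ioi (0 : ℝ) ×ˢ Ioo (-π) π) := measurableSet_Ioi.prod measurableSet_Ioo
  have h1 : ∫ p in Ioi (0 : ℝ) ×ˢ Ioo (-π) π,
      p.1 • (Metric.ball (0 : ℂ) N).indicator f (Complex.polarCoord.symm p)
      = ∫ p in Ioi (0 : ℝ) ×ˢ Ioo (-π) π, (Iio N ×ˢ (univ : Set ℝ)).indicator G p := by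
    apply setIntegral_congr_fun hset
    rintro ⟨r, θ⟩ ⟨hr, hθ⟩
    simp only [mem_Ioi] at hr
    have hn := Complex.norm_polarCoord_symm (r, θ)
    simp only [abs_of_pos hr] at hn
    show r • (Metric.ball (0 : ℂ) N).indicator f (Complex.polarCoord.symm (r, θ)) =
      (Iio N ×ˢ (univ : Set ℝ)).indicator G (r, θ)
    by_cases hrN : r < N
    · rw [indicator_of_mem, indicator_of_mem]
      · rw [Complex.polarCoord_symm_apply]
        rfl
      · exact ⟨hrN, mem_univ _⟩
      · rw [mem_ball_zero_iff, hn]; exact hrN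
    · rw [indicator_of_notMem, indicator_of_notMem]
      · simp
      · rintro ⟨h, -⟩; exact hrN h
      · rw [mem_ball_zero_iff, hn]; exact hrN
  rw [h1, setIntegral_indicator (measurableSet_Iio.prod MeasurableSet.univ)]
  have h2 : (Ioi (0 : ℝ) ×ˢ Ioo (-π) π) ∩ (Iio N ×ˢ (univ : Set ℝ)) = Ioo 0 N ×ˢ Ioo (-π) π := by
    ext ⟨r, θ⟩
    simp only [mem_inter_iff, mem_prod, mem_Ioi, mem_Iio, mem_univ, and_true, mem_Ioo]
    tauto
  rw [h2]
  have hint : IntegrableOn G (Ioo 0 N ×ˢ Ioo (-π) π) (volume.prod volume) := by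
    have : IntegrableOn G (Icc 0 N ×ˢ Icc (-π) π) (volume.prod volume) :=
      hGc.continuousOn.integrableOn_compact (isCompact_Icc.prod isCompact_Icc)
    exact this.mono_set (prod_mono Ioo_subset_Icc_self Ioo_subset_Icc_self)
  have h3 := setIntegral_prod G hint
  rw [Measure.volume_eq_prod, h3, intervalIntegral.integral_of_le hN.le,
    ← integral_Ioc_eq_integral_Ioo]
  congr 1
  funext r
  rw [intervalIntegral.integral_of_le hpi, ← integral_Ioc_eq_integral_Ioo]

lemma integral_sq_le {a b : ℝ} (hab : a ≤ b) {g : ℝ → ℝ} (hg : Continuous g) :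
    (∫ x in a..b, g x) ^ 2 ≤ (b - a) * ∫ x in a..b, g x ^ 2 := by
  rcases hab.eq_or_lt with rfl | hlt
  · simp
  set A := ∫ x in a..b, g x with hA
  set c := A / (b - a) with hc
  have hba : 0 < b - a := by linarith
  have h0 : 0 ≤ ∫ x in a..b, (g x - c) ^ 2 :=
    intervalIntegral.integral_nonneg hab (fun x _ => sq_nonneg _)
  have h1 : ∫ x in a..b, (g x - c) ^ 2
      = (∫ x in a..b, g x ^ 2) - 2 * c * A + c ^ 2 * (b - a) := by
    have e : (fun x => (g x - c) ^ 2) = fun x => (g x ^ 2 - (2 * c) * g x) + c ^ 2 := by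
      funext x; ring
    rw [e, intervalIntegral.integral_add, intervalIntegral.integral_sub,
      intervalIntegral.integral_const_mul, intervalIntegral.integral_const]
    · simp; ring
    · exact (hg.pow 2).intervalIntegrable _ _
    · exact (continuous_const.mul hg).intervalIntegrable _ _
    · exact ((hg.pow 2).sub (continuous_const.mul hg)).intervalIntegrable _ _
    · exact continuous_const.intervalIntegrable _ _
  rw [h1] at h0
  have h2 : c * (b - a) = A := by rw [hc]; field_simp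
  have h3 : 0 ≤ (b - a) * ((∫ x in a..b, g x ^ 2) - 2 * c * A + c ^ 2 * (b - a)) :=
    mul_nonneg hba.le h0
  have h4 : (b - a) * ((∫ x in a..b, g x ^ 2) - 2 * c * A + c ^ 2 * (b - a))
      = (b - a) * (∫ x in a..b, g x ^ 2) - 2 * (c * (b - a)) * A + (c * (b - a)) ^ 2 := by ring
  rw [h4, h2] at h3
  nlinarith

lemma hasDerivAt_cpt (r θ : ℝ) :
    HasDerivAt (fun θ => cpt r θ) (r * (-Real.sin θ + Real.cos θ * Complex.I)) θ := by
  unfold cpt
  have h1 : HasDerivAt (fun θ : ℝ => ((Real.cos θ : ℝ) : ℂ)) ((-Real.sin θ : ℝ) : ℂ) θ :=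
    (Real.hasDerivAt_cos θ).ofReal_comp
  have h2 : HasDerivAt (fun θ : ℝ => ((Real.sin θ : ℝ) : ℂ)) ((Real.cos θ : ℝ) : ℂ) θ :=
    (Real.hasDerivAt_sin θ).ofReal_comp
  have := (h1.add (h2.mul_const Complex.I)).const_mul (r : ℂ)
  simpa using this

lemma norm_cpt' (r θ : ℝ) : ‖(r : ℂ) * (-Real.sin θ + Real.cos θ * Complex.I)‖ = |r| := by
  have h : (r : ℂ) * (-Real.sin θ + Real.cos θ * Complex.I) = Complex.I * cpt r θ := by
    unfold cpt
    ring_nf
    rw [Complex.I_sq]
    ring
  rw [h, norm_mul, Complex.norm_I, norm_cpt, one_mul]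

lemma circle_sq_le {f : ℂ → ℝ} (hf : ContDiff ℝ 1 f) (r : ℝ) {θ₀ : ℝ} (hθ₀ : θ₀ ∈ Icc (-π) π)
    (h0 : f (cpt r θ₀) = 0) {θ : ℝ} (hθ : θ ∈ Icc (-π) π) :
    f (cpt r θ) ^ 2 ≤ 2 * π * ∫ x in (-π)..π, r ^ 2 * gsq f (cpt r x) := by
  have hpi : (-π : ℝ) ≤ π := by linarith [Real.pi_pos]
  set w : ℝ → ℂ := fun x => (r : ℂ) * (-Real.sin x + Real.cos x * Complex.I) with hw
  set g1 : ℝ → ℝ := fun x => fderiv ℝ f (cpt r x) (w x) with hg1
  have hder : ∀ x, HasDerivAt (fun x => f (cpt r x)) (g1 x) x := fun x =>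
    ((hf.differentiable one_ne_zero (cpt r x)).hasFDerivAt).comp_hasDerivAt x (hasDerivAt_cpt r x)
  have hcp : Continuous (fun x => cpt r x) := by unfold cpt; fun_prop
  have hwc : Continuous w := by rw [hw]; fun_prop
  have hg1c : Continuous g1 := ((hf.continuous_fderiv one_ne_zero).comp hcp).clm_apply hwc
  have hle : ∀ x, g1 x ^ 2 ≤ r ^ 2 * gsq f (cpt r x) := by
    intro x
    have := sq_fderiv_le f (cpt r x) (w x)
    rw [hw] at this
    simp only [norm_cpt', sq_abs] at this
    exact this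
  have hgc : Continuous (fun x => r ^ 2 * gsq f (cpt r x)) :=
    continuous_const.mul ((continuous_gsq hf).comp hcp)
  have hFTC : ∫ x in θ₀..θ, g1 x = f (cpt r θ) - f (cpt r θ₀) :=
    intervalIntegral.integral_eq_sub_of_hasDerivAt (fun x _ => hder x) (hg1c.intervalIntegrable _ _)
  rw [h0, sub_zero] at hFTC
  have habs : |f (cpt r θ)| ≤ ∫ x in (-π)..π, |g1 x| := by
    rw [← hFTC]
    have s1 : |∫ x in θ₀..θ, g1 x| ≤ |∫ x in θ₀..θ, (|g1 x|)| :=
      intervalIntegral.norm_integral_le_abs_integral_norm (f := g1) (a := θ₀) (b := θ) (μ := volume)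
    have s2 : |∫ x in θ₀..θ, (|g1 x|)| ≤ |∫ x in (-π)..π, (|g1 x|)| := by
      apply intervalIntegral.abs_integral_mono_interval
      · rw [uIoc_of_le hpi]
        intro y hy
        rw [mem_uIoc] at hy
        rcases hy with hy | hy
        · exact ⟨lt_of_le_of_lt hθ₀.1 hy.1, hy.2.trans hθ.2⟩
        · exact ⟨lt_of_le_of_lt hθ.1 hy.1, hy.2.trans hθ₀.2⟩
      · exact Eventually.of_forall (fun x => abs_nonneg _)
      · exact hg1c.abs.intervalIntegrable _ _
    have s3 : |∫ x in (-π)..π, (|g1 x|)| = ∫ x in (-π)..π, |g1 x| :=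
      abs_of_nonneg (intervalIntegral.integral_nonneg hpi (fun x _ => abs_nonneg _))
    linarith
  have hcs := integral_sq_le hpi hg1c.abs
  have hmono : ∫ x in (-π)..π, |g1 x| ^ 2 ≤ ∫ x in (-π)..π, r ^ 2 * gsq f (cpt r x) := by
    apply intervalIntegral.integral_mono_on hpi ((hg1c.abs.pow 2).intervalIntegrable _ _)
      (hgc.intervalIntegrable _ _)
    intro x _
    show |g1 x| ^ 2 ≤ _
    rw [sq_abs]
    exact hle x
  have hsq : f (cpt r θ) ^ 2 ≤ (∫ x in (-π)..π, |g1 x|) ^ 2 := by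
    rw [← sq_abs]
    exact pow_le_pow_left₀ (abs_nonneg _) habs 2
  calc f (cpt r θ) ^ 2 ≤ (∫ x in (-π)..π, |g1 x|) ^ 2 := hsq
    _ ≤ (π - -π) * ∫ x in (-π)..π, |g1 x| ^ 2 := hcs
    _ = 2 * π * ∫ x in (-π)..π, |g1 x| ^ 2 := by ring
    _ ≤ 2 * π * ∫ x in (-π)..π, r ^ 2 * gsq f (cpt r x) := by
        apply mul_le_mul_of_nonneg_left hmono
        have := Real.pi_pos
        positivity

/-- the weight `1/(1+|z|^2)` -/
noncomputable def wt (z : ℂ) : ℝ := 1 / (1 + ‖z‖ ^ 2)

lemma wt_pos (z : ℂ) : 0 < wt z := by unfold wt; positivity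
lemma wt_le_one (z : ℂ) : wt z ≤ 1 := by
  unfold wt
  rw [div_le_one (by positivity)]
  nlinarith [sq_nonneg ‖z‖]
lemma continuous_wt : Continuous wt := by
  unfold wt
  apply continuous_const.div (by fun_prop)
  intro z; positivity

lemma wt_cpt (r θ : ℝ) : wt (cpt r θ) = 1 / (1 + r ^ 2) := by
  unfold wt; rw [norm_cpt, sq_abs]

lemma poincare {f : ℂ → ℝ} (hf : ContDiff ℝ 1 f) {N : ℝ} (hN : 0 < N)
    (hz : ∀ r > 0, ∃ θ₀ ∈ Icc (-π) π, f (cpt r θ₀) = 0) :
    ∫ z in Metric.ball (0 : ℂ) N, wt z * f z ^ 2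
      ≤ 4 * π ^ 2 * ∫ z in Metric.ball (0 : ℂ) N, gsq f z := by
  have hpi : (-π : ℝ) ≤ π := by linarith [Real.pi_pos]
  have hpos := Real.pi_pos
  have hc1 : Continuous (fun z => wt z * f z ^ 2) := continuous_wt.mul (hf.continuous.pow 2)
  have hc2 := continuous_gsq hf
  rw [integral_ball_polar hc1 hN, integral_ball_polar hc2 hN, ← intervalIntegral.integral_const_mul]
  apply intervalIntegral.integral_mono_on hN.le
  · apply Continuous.intervalIntegrable
    apply intervalIntegral.continuous_parametric_intervalIntegral_of_continuous'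
    exact continuous_fst.mul (hc1.comp continuous_cpt)
  · apply Continuous.intervalIntegrable
    apply continuous_const.mul
    apply intervalIntegral.continuous_parametric_intervalIntegral_of_continuous'
    exact continuous_fst.mul (hc2.comp continuous_cpt)
  · intro r hr
    rcases hr.1.eq_or_lt with h0 | hr0
    · rw [← h0]; simp
    obtain ⟨θ₀, hθ₀, hθz⟩ := hz r hr0
    have hcp : Continuous (fun x => cpt r x) := by unfold cpt; fun_prop
    have hI0 : 0 ≤ ∫ x in (-π)..π, gsq f (cpt r x) :=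
      intervalIntegral.integral_nonneg hpi (fun x _ => gsq_nonneg _ _)
    have hb : ∀ θ ∈ Icc (-π) π, r * (wt (cpt r θ) * f (cpt r θ) ^ 2)
        ≤ r * (1 / (1 + r ^ 2) * (2 * π * (r ^ 2 * ∫ x in (-π)..π, gsq f (cpt r x)))) := by
      intro θ hθ
      have := circle_sq_le hf r hθ₀ hθz hθ
      rw [intervalIntegral.integral_const_mul] at this
      rw [wt_cpt]
      apply mul_le_mul_of_nonneg_left _ hr0.le
      exact mul_le_mul_of_nonneg_left this (by positivity)
    calc ∫ θ in (-π)..π, r * (wt (cpt r θ) * f (cpt r θ) ^ 2)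
        ≤ ∫ θ in (-π)..π, r * (1 / (1 + r ^ 2) * (2 * π * (r ^ 2 * ∫ x in (-π)..π, gsq f (cpt r x)))) := by
          apply intervalIntegral.integral_mono_on hpi _ (continuous_const.intervalIntegrable _ _) hb
          apply Continuous.intervalIntegrable
          exact continuous_const.mul (hc1.comp hcp)
      _ = (4 * π ^ 2) * (r * (r ^ 2 / (1 + r ^ 2)) * ∫ x in (-π)..π, gsq f (cpt r x)) := by
          rw [intervalIntegral.integral_const, smul_eq_mul]; ring
      _ ≤ (4 * π ^ 2) * (r * 1 * ∫ x in (-π)..π, gsq f (cpt r x)) := by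
          apply mul_le_mul_of_nonneg_left _ (by positivity)
          apply mul_le_mul_of_nonneg_right _ hI0
          apply mul_le_mul_of_nonneg_left _ hr0.le
          rw [div_le_one (by positivity)]
          linarith
      _ = 4 * π ^ 2 * ∫ θ in (-π)..π, r * gsq f (cpt r θ) := by
          rw [intervalIntegral.integral_const_mul]; ring

lemma exists_good_circle {f : ℂ → ℝ} (hf : ContDiff ℝ 1 f) {N D R : ℝ} (hR : 0 < R)
    (hRN : 2 * R ≤ N) (hD : ∫ z in Metric.ball (0 : ℂ) N, gsq f z ≤ D) :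
    ∃ r ∈ Icc R (2 * R), ∫ x in (-π)..π, r ^ 2 * gsq f (cpt r x) ≤ 2 * D + 1 := by
  have hpi : (-π : ℝ) ≤ π := by linarith [Real.pi_pos]
  by_contra hcon
  push Not at hcon
  have hN : 0 < N := by linarith
  have hc2 := continuous_gsq hf
  rw [integral_ball_polar hc2 hN] at hD
  have hcont : Continuous (fun r => ∫ θ in (-π)..π, r * gsq f (cpt r θ)) := by
    apply intervalIntegral.continuous_parametric_intervalIntegral_of_continuous'
    exact continuous_fst.mul (hc2.comp continuous_cpt)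
  have hD0 : 0 ≤ D := by
    refine le_trans ?_ hD
    apply intervalIntegral.integral_nonneg hN.le
    intro r hr
    apply intervalIntegral.integral_nonneg hpi
    intro x _
    exact mul_nonneg hr.1 (gsq_nonneg _ _)
  have h1 : ∫ r in R..(2 * R), ∫ θ in (-π)..π, r * gsq f (cpt r θ) ≤ D := by
    refine le_trans ?_ hD
    apply intervalIntegral.integral_mono_interval hR.le (by linarith) hRN
    · rw [EventuallyLE, ae_restrict_iff' measurableSet_Ioc]
      apply Eventually.of_forall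
      intro r hr
      apply intervalIntegral.integral_nonneg hpi
      intro x _
      exact mul_nonneg hr.1.le (gsq_nonneg _ _)
    · exact hcont.intervalIntegrable _ _
  have h2 : ∫ r in R..(2 * R), (2 * D + 1) / (2 * R)
      ≤ ∫ r in R..(2 * R), ∫ θ in (-π)..π, r * gsq f (cpt r θ) := by
    apply intervalIntegral.integral_mono_on (by linarith) (continuous_const.intervalIntegrable _ _)
      (hcont.intervalIntegrable _ _)
    intro r hr
    have h3 := hcon r hr
    have hr0 : 0 < r := lt_of_lt_of_le hR hr.1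
    have e : ∫ x in (-π)..π, r ^ 2 * gsq f (cpt r x)
        = r * ∫ x in (-π)..π, r * gsq f (cpt r x) := by
      rw [← intervalIntegral.integral_const_mul]
      congr 1; funext x; ring
    rw [e] at h3
    have hI : 0 ≤ ∫ x in (-π)..π, r * gsq f (cpt r x) :=
      intervalIntegral.integral_nonneg hpi (fun x _ => mul_nonneg hr0.le (gsq_nonneg _ _))
    rw [div_le_iff₀ (by linarith)]
    nlinarith [hr.2]
  rw [intervalIntegral.integral_const, smul_eq_mul] at h2
  have h4 : (2 * R - R) * ((2 * D + 1) / (2 * R)) = D + 1 / 2 := by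
    field_simp
    ring
  rw [h4] at h2
  linarith

/-- `(1/2) log (1+|z|^2)` -/
noncomputable def ell (z : ℂ) : ℝ := Real.log (1 + ‖z‖ ^ 2) / 2

noncomputable def ellr (r : ℝ) : ℝ := Real.log (1 + r ^ 2) / 2

lemma ell_cpt (r θ : ℝ) : ell (cpt r θ) = ellr r := by
  unfold ell ellr; rw [norm_cpt, sq_abs]

lemma continuous_ell : Continuous ell := by
  unfold ell
  apply Continuous.div_const
  apply Continuous.log (by fun_prop)
  intro z; positivity

lemma hasDerivAt_ellr (r : ℝ) : HasDerivAt ellr (r / (1 + r ^ 2)) r := by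
  unfold ellr
  have h1 : HasDerivAt (fun r : ℝ => 1 + r ^ 2) (2 * r) r := by
    have := (hasDerivAt_pow 2 r).const_add 1
    simpa using this
  have h2 := (h1.log (by positivity)).div_const 2
  have e : r / (1 + r ^ 2) = 2 * r / (1 + r ^ 2) / 2 := by ring
  rw [e]
  exact h2

/-- logarithmic weight -/
noncomputable def lw (ε l₀ : ℝ) (z : ℂ) : ℝ := 1 / (1 + ε ^ 2 * (ell z - l₀) ^ 2)

lemma lw_pos (ε l₀ : ℝ) (z : ℂ) : 0 < lw ε l₀ z := by unfold lw; positivity
lemma lw_le_one (ε l₀ : ℝ) (z : ℂ) : lw ε l₀ z ≤ 1 := by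
  unfold lw
  rw [div_le_one (by positivity)]
  nlinarith [mul_nonneg (sq_nonneg ε) (sq_nonneg (ell z - l₀))]
lemma continuous_lw (ε l₀ : ℝ) : Continuous (lw ε l₀) := by
  unfold lw
  apply continuous_const.div
  · exact continuous_const.add (continuous_const.mul ((continuous_ell.sub continuous_const).pow 2))
  · intro z; positivity

lemma integral_lw_le {ε : ℝ} (hε : 0 < ε) (l₀ : ℝ) {N : ℝ} (hN : 0 < N) :
    ∫ z in Metric.ball (0 : ℂ) N, lw ε l₀ z * wt z ≤ 2 * π ^ 2 / ε := by
  have hpi : (-π : ℝ) ≤ π := by linarith [Real.pi_pos]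
  have hpos := Real.pi_pos
  have hc : Continuous (fun z => lw ε l₀ z * wt z) := (continuous_lw ε l₀).mul continuous_wt
  rw [integral_ball_polar hc hN]
  have hin : ∀ r : ℝ, ∫ θ in (-π)..π, r * (lw ε l₀ (cpt r θ) * wt (cpt r θ))
      = (2 * π / ε) * (1 / (1 + (ε * (ellr r - l₀)) ^ 2) * (ε * (r / (1 + r ^ 2)))) := by
    intro r
    have e : (fun θ => r * (lw ε l₀ (cpt r θ) * wt (cpt r θ)))
        = fun _ => r * (1 / (1 + ε ^ 2 * (ellr r - l₀) ^ 2) * (1 / (1 + r ^ 2))) := by
      funext θ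
      rw [wt_cpt]; unfold lw; rw [ell_cpt]
    rw [e, intervalIntegral.integral_const, smul_eq_mul]
    have h1 : (1 + (ε * (ellr r - l₀)) ^ 2) ≠ 0 := by positivity
    have h2 : (1 + r ^ 2) ≠ 0 := by positivity
    have h3 : (1 + ε ^ 2 * (ellr r - l₀) ^ 2) ≠ 0 := by positivity
    rw [mul_pow]
    field_simp
    ring
  simp_rw [hin]
  rw [intervalIntegral.integral_const_mul]
  have hder : ∀ r : ℝ, HasDerivAt (fun r => Real.arctan (ε * (ellr r - l₀)))
      (1 / (1 + (ε * (ellr r - l₀)) ^ 2) * (ε * (r / (1 + r ^ 2)))) r := by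
    intro r
    exact (((hasDerivAt_ellr r).sub_const l₀).const_mul ε).arctan
  have hellc : Continuous ellr := continuous_iff_continuousAt.2 fun r => (hasDerivAt_ellr r).continuousAt
  rw [intervalIntegral.integral_eq_sub_of_hasDerivAt (fun x _ => hder x)]
  · have h1 := Real.arctan_lt_pi_div_two (ε * (ellr N - l₀))
    have h2 := Real.neg_pi_div_two_lt_arctan (ε * (ellr 0 - l₀))
    have h3 : Real.arctan (ε * (ellr N - l₀)) - Real.arctan (ε * (ellr 0 - l₀)) ≤ π := by linarith
    calc 2 * π / ε * (Real.arctan (ε * (ellr N - l₀)) - Real.arctan (ε * (ellr 0 - l₀)))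
        ≤ 2 * π / ε * π := mul_le_mul_of_nonneg_left h3 (by positivity)
      _ = 2 * π ^ 2 / ε := by ring
  · apply Continuous.intervalIntegrable
    apply Continuous.mul
    · apply continuous_const.div
      · exact continuous_const.add ((continuous_const.mul (hellc.sub continuous_const)).pow 2)
      · intro x; positivity
    · apply continuous_const.mul
      apply continuous_id.div (by fun_prop)
      intro x; positivity

end Q176Had
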